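import Mathlib
import Pool.Agent.Work.MP_56b8f5_nt.UC.Stmts
import Pool.Agent.Work.MP_56b8f5_nt.UC.I_Ow
import Pool.Agent.Work.MP_56b8f5_nt.UC.I_T2

/-!
MP_a8fbd7_nt, block OX, large value theorem of Jutila, part a: mean square of a smooth block over the
differences of a separated set,
`∑_{s,t ∈ W} |∑_n w(n/N) n^{-i(s-t)}|² ≤ C T^ε (R N² + R^{3/2} T^{1/2} N)`, `R = |W|`.
-/

open MeasureTheory Set Filter Topology

noncomputable section

namespace Pool.Agent.Work.MP_a8fbd7_nt.OX.JK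

open Pool.Agent.Work.MP_56b8f5_nt.UC
open Pool.Agent.Work.MP_56b8f5_nt.UC.T2_aux

/-- mean square over differences -/
def StJa : Prop := ∀ w : ℝ → ℝ, IsWt w → ∀ ε : ℝ, 0 < ε → ∃ C : ℝ, 1 ≤ C ∧
  ∀ (T0 T N : ℝ) (W : Finset ℝ), 1 ≤ T → 0 < N → Sep W → (∀ t ∈ W, T0 ≤ t ∧ t ≤ T0 + T) →
    ∑ s ∈ W, ∑ t ∈ W, ‖Bl w N (s - t)‖ ^ 2 ≤
      C * T ^ ε * ((W.card : ℝ) * N ^ 2 + (W.card : ℝ) * Real.sqrt W.card * (Real.sqrt T * N))

namespace Ja_aux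

/-- one pair at the scale `D` -/
lemma farw {w u : ℝ → ℝ} (hcont : ∀ N : ℝ, 0 < N → Continuous (Bl u N)) {CB : ℝ}
    (hBb : ∀ N t : ℝ, 0 < N → ‖Bl u N t‖ ≤ CB * N) {CR : ℝ} (hCR : 1 ≤ CR)
    (hR : ∀ N D t : ℝ, 0 < N → 1 ≤ D → D ≤ |t| → |t| ≤ 2 * D →
      ‖Bl w N t‖ ≤ CR * (N / Real.sqrt D) * (∫ y : ℝ, ‖Bl u (D / N) (t + y)‖ / (1 + |y|) ^ 2) +
        CR / D + CR * N / D ^ 2)
    {N D x : ℝ} (hN : 0 < N) (hD1 : 1 ≤ D) (hDx : D ≤ |x|) (hxD : |x| ≤ 2 * D) :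
    ‖Bl w N x‖ ^ 2 ≤ 15 * CR ^ 2 * (1 + N ^ 2 / (1 + x ^ 2)) +
      3 * CR ^ 2 * Kw * (N ^ 2 / D * Gw u (D / N) x) := by
  have hDN0 : 0 < D / N := by positivity
  have h3 := hR N D x hN hD1 hDx hxD
  set J : ℝ := ∫ y : ℝ, ‖Bl u (D / N) (x + y)‖ / (1 + |y|) ^ 2 with hJ
  have hJ' : J = ∫ y : ℝ, ‖Bl u (D / N) (x + y)‖ * wy y := by
    rw [hJ]; congr 1; funext y; simp only [wy]; ring
  have hcn : Continuous fun y => ‖Bl u (D / N) (x + y)‖ :=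
    ((hcont _ hDN0).comp (by fun_prop)).norm
  have hJ2 : J ^ 2 ≤ Kw * Gw u (D / N) x := by
    rw [hJ']
    exact cs hcn (B := CB * (D / N)) (fun y => by rw [abs_norm]; exact hBb _ _ hDN0)
  have hJ0 : 0 ≤ J := by
    rw [hJ']; exact integral_nonneg (fun y => mul_nonneg (norm_nonneg _) (wy_nonneg y))
  have hD0 : 0 < D := by linarith
  have hsq : (CR * (N / Real.sqrt D) * J) ^ 2 = CR ^ 2 * (N ^ 2 / D) * J ^ 2 := by
    rw [mul_pow, mul_pow, div_pow, Real.sq_sqrt (by linarith)]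
  have h8 : ‖Bl w N x‖ ^ 2 ≤ (CR * (N / Real.sqrt D) * J + CR / D + CR * N / D ^ 2) ^ 2 :=
    pow_le_pow_left₀ (norm_nonneg _) h3 2
  have h9 : CR ^ 2 * (N ^ 2 / D) * J ^ 2 ≤ CR ^ 2 * (N ^ 2 / D) * (Kw * Gw u (D / N) x) := by
    gcongr
  have h10 : (CR * (N / Real.sqrt D) * J + CR / D + CR * N / D ^ 2) ^ 2 ≤
      3 * (CR * (N / Real.sqrt D) * J) ^ 2 + 3 * (CR / D) ^ 2 + 3 * (CR * N / D ^ 2) ^ 2 := by
    generalize CR * (N / Real.sqrt D) * J = p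
    generalize CR / D = q
    generalize CR * N / D ^ 2 = r
    nlinarith [sq_nonneg (p - q), sq_nonneg (p - r), sq_nonneg (q - r)]
  rw [hsq] at h10
  have e1 : (CR / D) ^ 2 ≤ CR ^ 2 := by
    apply pow_le_pow_left₀ (by positivity)
    exact div_le_self (by linarith) hD1
  have e2 : (CR * N / D ^ 2) ^ 2 ≤ 5 * CR ^ 2 * (N ^ 2 / (1 + x ^ 2)) := by
    have hx2 : x ^ 2 ≤ 4 * D ^ 2 := by
      rw [← sq_abs]
      calc |x| ^ 2 ≤ (2 * D) ^ 2 := pow_le_pow_left₀ (abs_nonneg _) hxD 2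
        _ = 4 * D ^ 2 := by ring
    have hD2 : 1 ≤ D ^ 2 := one_le_pow₀ hD1
    have hD4 : D ^ 2 ≤ (D ^ 2) ^ 2 := by nlinarith
    have e3 : (CR * N / D ^ 2) ^ 2 = CR ^ 2 * N ^ 2 / (D ^ 2) ^ 2 := by rw [div_pow, mul_pow]
    have e4 : 5 * CR ^ 2 * (N ^ 2 / (1 + x ^ 2)) = CR ^ 2 * N ^ 2 / ((1 + x ^ 2) / 5) := by
      field_simp
    rw [e3, e4]
    apply div_le_div_of_nonneg_left (by positivity) (by positivity)
    linarith
  have e5 : 0 ≤ CR ^ 2 * (N ^ 2 / (1 + x ^ 2)) := by positivity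
  have e6 : 0 ≤ CR ^ 2 := by positivity
  calc ‖Bl w N x‖ ^ 2 ≤ 3 * (CR ^ 2 * (N ^ 2 / D) * J ^ 2) + 3 * (CR / D) ^ 2 +
        3 * (CR * N / D ^ 2) ^ 2 := h8.trans h10
    _ ≤ 3 * (CR ^ 2 * (N ^ 2 / D) * (Kw * Gw u (D / N) x)) + 3 * CR ^ 2 +
        3 * (5 * CR ^ 2 * (N ^ 2 / (1 + x ^ 2))) := by gcongr
    _ ≤ _ := by linarith

end Ja_aux

open Ja_aux in
theorem ja (hRf : StRf) (hMk : StMk) (hBc : StBc) (hS2 : StS2) : StJa := by
  intro w hw ε hε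
  obtain ⟨u, hu, hRf'⟩ := hRf w hw
  obtain ⟨CR, hCR1, hR⟩ := hRf' 2 le_rfl
  obtain ⟨CM, hCM1, hM⟩ := hMk u hu 2 (ε / 2) (by norm_num) (by positivity)
  obtain ⟨CV, hCV1, hV⟩ := hMk w hw 2 ε (by norm_num) hε
  obtain ⟨_, hcont, _, CB, hCB1, hBb, _⟩ := hBc u hu
  obtain ⟨_, _, _, CA, hCA1, hAb, _⟩ := hBc w hw
  obtain ⟨CC, hCC1, hcard⟩ := hS2
  have hlog2 : 0 < Real.log 2 := Real.log_pos (by norm_num)
  obtain ⟨C5, hC5⟩ : ∃ C5 : ℝ, C5 = 1 / (ε / 2) / Real.log 2 + 1 := ⟨_, rfl⟩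
  have hC50 : 0 ≤ C5 := by rw [hC5]; positivity
  have hKw := Kw_nonneg
  obtain ⟨A1, hA1⟩ : ∃ A1 : ℝ, A1 = 15 * CR ^ 2 + 2 * CA ^ 2 := ⟨_, rfl⟩
  obtain ⟨A2, hA2⟩ : ∃ A2 : ℝ, A2 = 3 * CR ^ 2 * Kw := ⟨_, rfl⟩
  have hA10 : 0 ≤ A1 := by rw [hA1]; positivity
  have hA20 : 0 ≤ A2 := by rw [hA2]; positivity
  refine ⟨1 + 2 * CV + 2 * CA ^ 2 + A1 * (2 + CC) + 2 * A2 * Kw * CM * C5, ?_, ?_⟩
  · have : 0 ≤ 2 * CV + 2 * CA ^ 2 + A1 * (2 + CC) + 2 * A2 * Kw * CM * C5 := by positivity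
    linarith
  intro T0 T N W hT hN hSep hWT
  have hT0 : 0 < T := by linarith
  have hTe : 1 ≤ T ^ ε := Real.one_le_rpow hT hε.le
  rcases W.eq_empty_or_nonempty with hWe | hWne
  · subst hWe; simp
  obtain ⟨R, hRdef⟩ : ∃ R : ℝ, R = (W.card : ℝ) := ⟨_, rfl⟩
  have hR1 : 1 ≤ R := by
    rw [hRdef]; exact_mod_cast hWne.card_pos
  have hR0 : 0 < R := by linarith
  have hRT : R ≤ 2 * T := by
    rw [hRdef]; exact (hcard W hSep).2.2 T0 T hT hWT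
  rw [← hRdef]
  have hsR : Real.sqrt R * Real.sqrt R = R := Real.mul_self_sqrt hR0.le
  have hsT : Real.sqrt T * Real.sqrt T = T := Real.mul_self_sqrt hT0.le
  have hsR0 : 0 < Real.sqrt R := Real.sqrt_pos.mpr hR0
  have hsT0 : 0 < Real.sqrt T := Real.sqrt_pos.mpr hT0
  have hsRT : Real.sqrt R ≤ 2 * Real.sqrt T := by
    rw [Real.sqrt_le_left (by positivity), mul_pow, Real.sq_sqrt hT0.le]
    linarith
  -- `R ^ 2 ≤ 2 R sqrt R sqrt T`
  have hR2 : R ^ 2 ≤ 2 * (R * Real.sqrt R * Real.sqrt T) := by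
    calc R ^ 2 = R * Real.sqrt R * Real.sqrt R := by rw [mul_assoc, hsR]; ring
      _ ≤ R * Real.sqrt R * (2 * Real.sqrt T) := by gcongr
      _ = _ := by ring
  obtain ⟨P, hP⟩ : ∃ P : ℝ, P = R * N ^ 2 := ⟨_, rfl⟩
  obtain ⟨Q, hQ⟩ : ∃ Q : ℝ, Q = R * Real.sqrt R * (Real.sqrt T * N) := ⟨_, rfl⟩
  have hP0 : 0 ≤ P := by rw [hP]; positivity
  have hQ0 : 0 ≤ Q := by rw [hQ]; positivity
  rw [← hP, ← hQ]
  have hfin : ∀ {X c : ℝ}, X ≤ c * T ^ ε * (P + Q) →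
      c ≤ 1 + 2 * CV + 2 * CA ^ 2 + A1 * (2 + CC) + 2 * A2 * Kw * CM * C5 →
      X ≤ (1 + 2 * CV + 2 * CA ^ 2 + A1 * (2 + CC) + 2 * A2 * Kw * CM * C5) * T ^ ε * (P + Q) := by
    intro X c h1 h2
    refine h1.trans ?_
    have : 0 ≤ T ^ ε * (P + Q) := by positivity
    nlinarith
  have g1 : 0 ≤ A1 * (2 + CC) := by positivity
  have g2 : 0 ≤ 2 * A2 * Kw * CM * C5 := by positivity
  have g3 : 0 ≤ 2 * CV := by positivity
  have g4 : 0 ≤ 2 * CA ^ 2 := by positivity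
  -- short blocks `N < 1`
  rcases lt_or_ge N 1 with hN1 | hN1
  · refine hfin (c := 2 * CA ^ 2) ?_ (by linarith)
    calc ∑ s ∈ W, ∑ t ∈ W, ‖Bl w N (s - t)‖ ^ 2
        ≤ ∑ s ∈ W, ∑ t ∈ W, (CA * N) ^ 2 :=
          Finset.sum_le_sum fun s _ => Finset.sum_le_sum fun t _ =>
            pow_le_pow_left₀ (norm_nonneg _) (hAb N _ hN) 2
      _ = R ^ 2 * (CA * N) ^ 2 := by
          simp only [Finset.sum_const, nsmul_eq_mul, ← hRdef]; ring
      _ ≤ (2 * (R * Real.sqrt R * Real.sqrt T)) * (CA ^ 2 * N) := by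
          gcongr
          rw [mul_pow]
          have : N ^ 2 ≤ N := by nlinarith
          gcongr
      _ = 2 * CA ^ 2 * 1 * (0 + Q) := by rw [hQ]; ring
      _ ≤ 2 * CA ^ 2 * T ^ ε * (P + Q) := by gcongr
  -- blocks with `N ^ 2 ≤ T`
  rcases le_or_gt (N ^ 2) T with hNT | hNT
  · have hNT' : N ≤ T := by nlinarith
    have hNs : N ≤ Real.sqrt T := Real.le_sqrt_of_sq_le hNT
    refine hfin (c := 2 * CV) ?_ (by linarith)
    have h1 : ∀ s ∈ W, ∑ t ∈ W, ‖Bl w N (s - t)‖ ^ 2 ≤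
        2 * CV * T ^ ε * (Real.sqrt R * (Real.sqrt T * N)) := by
      intro s _
      have h2 := sum_sq (k := 2) (by norm_num) hCV1 hε hV hT hN hNT' hWne hSep hWT s
      rw [← hRdef] at h2
      have e1 : R ^ (1 - 1 / ((2 : ℕ) : ℝ)) = Real.sqrt R := by
        rw [Real.sqrt_eq_rpow]; congr 1; norm_num
      have e2 : T ^ (1 / ((2 : ℕ) : ℝ)) = Real.sqrt T := by
        rw [Real.sqrt_eq_rpow]; congr 1
      rw [e1, e2] at h2
      refine h2.trans ?_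
      calc CV * T ^ ε * Real.sqrt R * ((Real.sqrt T + N) * N)
          ≤ CV * T ^ ε * Real.sqrt R * ((Real.sqrt T + Real.sqrt T) * N) := by gcongr
        _ = _ := by ring
    calc ∑ s ∈ W, ∑ t ∈ W, ‖Bl w N (s - t)‖ ^ 2
        ≤ ∑ s ∈ W, 2 * CV * T ^ ε * (Real.sqrt R * (Real.sqrt T * N)) := Finset.sum_le_sum h1
      _ = 2 * CV * T ^ ε * (0 + Q) := by
          rw [Finset.sum_const, nsmul_eq_mul, ← hRdef, hQ]; ring
      _ ≤ 2 * CV * T ^ ε * (P + Q) := by gcongr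
  -- long blocks
  have hNs : Real.sqrt T ≤ N := by
    rw [Real.sqrt_le_left (by linarith)]; exact hNT.le
  refine hfin (c := A1 * (2 + CC) + 2 * A2 * Kw * CM * C5) ?_ (by linarith)
  obtain ⟨I0, hI0⟩ : ∃ I0 : ℕ, I0 = ⌊Real.log T / Real.log 2⌋₊ + 1 := ⟨_, rfl⟩
  obtain ⟨S, hSdef⟩ : ∃ S : Finset ℕ, S = (Finset.range I0).filter (fun i => (2 : ℝ) ^ i ≤ T) :=
    ⟨_, rfl⟩
  have hScard : (S.card : ℝ) ≤ C5 * T ^ (ε / 2) := by
    have h1 : (S.card : ℝ) ≤ I0 := by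
      rw [hSdef]
      exact_mod_cast (Finset.card_filter_le _ _).trans (by simp)
    have h2 : (I0 : ℝ) ≤ Real.log T / Real.log 2 + 1 := by
      rw [hI0]; push_cast
      have := Nat.floor_le (div_nonneg (Real.log_nonneg hT) hlog2.le)
      linarith
    have h3 : Real.log T ≤ T ^ (ε / 2) / (ε / 2) := Real.log_le_rpow_div hT0.le (by positivity)
    have h4 : 1 ≤ T ^ (ε / 2) := Real.one_le_rpow hT (by positivity)
    calc (S.card : ℝ) ≤ Real.log T / Real.log 2 + 1 := h1.trans h2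
      _ ≤ T ^ (ε / 2) / (ε / 2) / Real.log 2 + T ^ (ε / 2) := by gcongr
      _ = C5 * T ^ (ε / 2) := by rw [hC5]; ring
  have hpair : ∀ s ∈ W, ∀ t ∈ W, ‖Bl w N (s - t)‖ ^ 2 ≤
      A1 * (1 + N ^ 2 / (1 + (s - t) ^ 2)) +
        ∑ i ∈ S, A2 * (N ^ 2 / 2 ^ i * Gw u (2 ^ i / N) (s - t)) := by
    intro s hs t ht
    have hxT : |s - t| ≤ T := by
      rw [abs_le]
      constructor <;> linarith [(hWT s hs).1, (hWT s hs).2, (hWT t ht).1, (hWT t ht).2]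
    have hsum0 : 0 ≤ ∑ i ∈ S, A2 * (N ^ 2 / 2 ^ i * Gw u (2 ^ i / N) (s - t)) := by
      refine Finset.sum_nonneg (fun i _ => ?_)
      have := Gw_nonneg u (2 ^ i / N) (s - t)
      positivity
    have hq0 : 0 ≤ N ^ 2 / (1 + (s - t) ^ 2) := by positivity
    by_cases hne : s = t
    · subst hne
      have h1 := hAb N (s - s) hN
      have h2 : ‖Bl w N (s - s)‖ ^ 2 ≤ (CA * N) ^ 2 := pow_le_pow_left₀ (norm_nonneg _) h1 2
      have h3 : N ^ 2 / (1 + (s - s) ^ 2) = N ^ 2 := by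
        rw [sub_self]; norm_num
      rw [h3]
      have h4 : (CA * N) ^ 2 ≤ A1 * (1 + N ^ 2) := by
        rw [hA1, mul_pow]
        have : 0 ≤ CR ^ 2 := by positivity
        have : 0 ≤ CA ^ 2 := by positivity
        have : 0 ≤ N ^ 2 := by positivity
        nlinarith
      linarith
    · have h1x : 1 ≤ |s - t| := hSep s hs t ht hne
      obtain ⟨i, hi1, hi2⟩ := exists_nat_pow_near (x := |s - t|) (y := (2 : ℝ)) h1x (by norm_num)
      have hiT : (2 : ℝ) ^ i ≤ T := hi1.trans hxT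
      have hiS : i ∈ S := by
        rw [hSdef, Finset.mem_filter, Finset.mem_range]
        refine ⟨?_, hiT⟩
        rw [hI0]
        have h3 : (i : ℝ) * Real.log 2 ≤ Real.log T := by
          rw [← Real.log_pow]
          exact Real.log_le_log (by positivity) hiT
        have h4 : i ≤ ⌊Real.log T / Real.log 2⌋₊ := by
          apply Nat.le_floor
          rw [le_div_iff₀ hlog2]; exact h3
        omega
      have h5 := farw (w := w) hcont (fun N t hN => hBb N t hN) hCR1 hR (D := 2 ^ i) hN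
        (one_le_pow₀ (by norm_num)) hi1 (by rw [pow_succ] at hi2; linarith)
      have h6 : A2 * (N ^ 2 / 2 ^ i * Gw u (2 ^ i / N) (s - t)) ≤
          ∑ i ∈ S, A2 * (N ^ 2 / 2 ^ i * Gw u (2 ^ i / N) (s - t)) := by
        refine Finset.single_le_sum
          (f := fun i : ℕ => A2 * (N ^ 2 / 2 ^ i * Gw u (2 ^ i / N) (s - t))) (fun j _ => ?_) hiS
        have := Gw_nonneg u (2 ^ j / N) (s - t)
        positivity
      rw [← hA2] at h5
      have h7 : 15 * CR ^ 2 * (1 + N ^ 2 / (1 + (s - t) ^ 2)) ≤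
          A1 * (1 + N ^ 2 / (1 + (s - t) ^ 2)) := by
        rw [hA1]
        gcongr
        have : 0 ≤ CA ^ 2 := by positivity
        linarith
      linarith
  -- sums over the pairs for one scale
  have hscale : ∀ i ∈ S, ∑ s ∈ W, ∑ t ∈ W, (N ^ 2 / 2 ^ i * Gw u (2 ^ i / N) (s - t)) ≤
      2 * CM * T ^ (ε / 2) * Kw * Q := by
    intro i hi
    rw [hSdef, Finset.mem_filter] at hi
    have hDT : (2 : ℝ) ^ i ≤ T := hi.2
    obtain ⟨D, hD⟩ : ∃ D : ℝ, D = 2 ^ i := ⟨_, rfl⟩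
    rw [← hD] at hDT ⊢
    have hD0' : 0 < D := by rw [hD]; positivity
    have hNp : 0 < D / N := by positivity
    have hNT2 : D / N ≤ T := (div_le_self hD0'.le hN1).trans hDT
    have hB := sum_sq (k := 2) (by norm_num) hCM1 (half_pos hε) hM hT hNp hNT2 hWne hSep hWT
    rw [← hRdef] at hB
    have e1 : R ^ (1 - 1 / ((2 : ℕ) : ℝ)) = Real.sqrt R := by
      rw [Real.sqrt_eq_rpow]; congr 1; norm_num
    have e2 : T ^ (1 / ((2 : ℕ) : ℝ)) = Real.sqrt T := by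
      rw [Real.sqrt_eq_rpow]; congr 1
    rw [e1, e2] at hB
    have h1 : ∀ s ∈ W, ∑ t ∈ W, (N ^ 2 / D * Gw u (D / N) (s - t)) ≤
        2 * CM * T ^ (ε / 2) * Kw * (Real.sqrt R * (Real.sqrt T * N)) := by
      intro s _
      rw [← Finset.mul_sum]
      have h2 := sum_Gw hcont (fun N t hN => hBb N t hN) hNp hB s
      have hDN : D ≤ Real.sqrt T * N := by
        calc D ≤ T := hDT
          _ = Real.sqrt T * Real.sqrt T := hsT.symm
          _ ≤ Real.sqrt T * N := by gcongr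
      calc N ^ 2 / D * ∑ t ∈ W, Gw u (D / N) (s - t)
          ≤ N ^ 2 / D * (CM * T ^ (ε / 2) * Real.sqrt R * ((Real.sqrt T + D / N) * (D / N)) * Kw) := by
            gcongr
        _ = CM * T ^ (ε / 2) * Kw * (Real.sqrt R * (Real.sqrt T * N + D)) := by
            field_simp
        _ ≤ CM * T ^ (ε / 2) * Kw * (Real.sqrt R * (Real.sqrt T * N + Real.sqrt T * N)) := by gcongr
        _ = _ := by ring
    calc ∑ s ∈ W, ∑ t ∈ W, (N ^ 2 / D * Gw u (D / N) (s - t))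
        ≤ ∑ s ∈ W, 2 * CM * T ^ (ε / 2) * Kw * (Real.sqrt R * (Real.sqrt T * N)) :=
          Finset.sum_le_sum h1
      _ = _ := by rw [Finset.sum_const, nsmul_eq_mul, ← hRdef, hQ]; ring
  have hTT : T ^ (ε / 2) * T ^ (ε / 2) = T ^ ε := by
    rw [← Real.rpow_add hT0]; congr 1; ring
  have hTh : 0 ≤ T ^ (ε / 2) := by positivity
  have hnear : ∑ s ∈ W, ∑ t ∈ W, A1 * (1 + N ^ 2 / (1 + (s - t) ^ 2)) ≤
      A1 * (2 + CC) * T ^ ε * (P + Q) := by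
    have h1 : ∀ s ∈ W, ∑ t ∈ W, A1 * (1 + N ^ 2 / (1 + (s - t) ^ 2)) ≤
        A1 * (R + CC * N ^ 2) := by
      intro s _
      rw [← Finset.mul_sum]
      have h2 := (hcard W hSep).1 s
      have h3 : ∑ t ∈ W, (1 + N ^ 2 / (1 + (s - t) ^ 2)) ≤ R + CC * N ^ 2 := by
        rw [Finset.sum_add_distrib, Finset.sum_const, nsmul_eq_mul, mul_one, ← hRdef]
        have h4 : ∑ t ∈ W, N ^ 2 / (1 + (s - t) ^ 2) = N ^ 2 * ∑ t ∈ W, 1 / (1 + (s - t) ^ 2) := by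
          rw [Finset.mul_sum]
          refine Finset.sum_congr rfl fun t _ => ?_
          ring
        rw [h4]
        have : N ^ 2 * ∑ t ∈ W, 1 / (1 + (s - t) ^ 2) ≤ N ^ 2 * CC := by gcongr
        linarith
      gcongr
    calc ∑ s ∈ W, ∑ t ∈ W, A1 * (1 + N ^ 2 / (1 + (s - t) ^ 2))
        ≤ ∑ s ∈ W, A1 * (R + CC * N ^ 2) := Finset.sum_le_sum h1
      _ = A1 * (R ^ 2 + CC * P) := by
          rw [Finset.sum_const, nsmul_eq_mul, ← hRdef, hP]; ring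
      _ ≤ A1 * (2 * (R * Real.sqrt R * Real.sqrt T) * N + CC * P) := by
          have : R ^ 2 ≤ 2 * (R * Real.sqrt R * Real.sqrt T) * N := by
            refine hR2.trans ?_
            have : 0 ≤ 2 * (R * Real.sqrt R * Real.sqrt T) := by positivity
            nlinarith
          gcongr
      _ = A1 * (2 * Q + CC * P) := by rw [hQ]; ring
      _ ≤ A1 * ((2 + CC) * (P + Q)) := by
          have : 2 * Q + CC * P ≤ (2 + CC) * (P + Q) := by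
            have : 0 ≤ CC * Q := by positivity
            nlinarith
          gcongr
      _ = A1 * (2 + CC) * 1 * (P + Q) := by ring
      _ ≤ A1 * (2 + CC) * T ^ ε * (P + Q) := by gcongr
  have step1 : ∑ s ∈ W, ∑ t ∈ W, ‖Bl w N (s - t)‖ ^ 2 ≤
      A1 * (2 + CC) * T ^ ε * (P + Q) +
        ∑ i ∈ S, A2 * ∑ s ∈ W, ∑ t ∈ W, (N ^ 2 / 2 ^ i * Gw u (2 ^ i / N) (s - t)) := by
    calc ∑ s ∈ W, ∑ t ∈ W, ‖Bl w N (s - t)‖ ^ 2
        ≤ ∑ s ∈ W, ∑ t ∈ W, (A1 * (1 + N ^ 2 / (1 + (s - t) ^ 2)) +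
            ∑ i ∈ S, A2 * (N ^ 2 / 2 ^ i * Gw u (2 ^ i / N) (s - t))) :=
          Finset.sum_le_sum (fun s hs => Finset.sum_le_sum (fun t ht => hpair s hs t ht))
      _ = ∑ s ∈ W, ∑ t ∈ W, A1 * (1 + N ^ 2 / (1 + (s - t) ^ 2)) +
            ∑ i ∈ S, A2 * ∑ s ∈ W, ∑ t ∈ W, (N ^ 2 / 2 ^ i * Gw u (2 ^ i / N) (s - t)) := by
          simp only [Finset.sum_add_distrib]
          congr 1
          simp only [Finset.mul_sum]
          symm
          rw [Finset.sum_comm]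
          refine Finset.sum_congr rfl (fun s _ => ?_)
          rw [Finset.sum_comm]
      _ ≤ _ := by linarith
  have step2 : ∑ i ∈ S, A2 * ∑ s ∈ W, ∑ t ∈ W, (N ^ 2 / 2 ^ i * Gw u (2 ^ i / N) (s - t)) ≤
      2 * A2 * Kw * CM * C5 * T ^ ε * (P + Q) := by
    calc ∑ i ∈ S, A2 * ∑ s ∈ W, ∑ t ∈ W, (N ^ 2 / 2 ^ i * Gw u (2 ^ i / N) (s - t))
        ≤ ∑ i ∈ S, A2 * (2 * CM * T ^ (ε / 2) * Kw * Q) := by
          refine Finset.sum_le_sum (fun i hi => ?_)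
          have := hscale i hi
          gcongr
      _ = S.card * (A2 * (2 * CM * T ^ (ε / 2) * Kw * Q)) := by
          rw [Finset.sum_const, nsmul_eq_mul]
      _ ≤ C5 * T ^ (ε / 2) * (A2 * (2 * CM * T ^ (ε / 2) * Kw * (P + Q))) := by
          have : Q ≤ P + Q := by linarith
          gcongr
      _ = 2 * A2 * Kw * CM * C5 * (T ^ (ε / 2) * T ^ (ε / 2)) * (P + Q) := by ring
      _ = _ := by rw [hTT]
  calc ∑ s ∈ W, ∑ t ∈ W, ‖Bl w N (s - t)‖ ^ 2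
      ≤ A1 * (2 + CC) * T ^ ε * (P + Q) + 2 * A2 * Kw * CM * C5 * T ^ ε * (P + Q) := by linarith
    _ = _ := by ring

end Pool.Agent.Work.MP_a8fbd7_nt.OX.JK
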