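import Mathlib
import Pool.Agent.Work.MP_56b8f5_nt.UC.Stmts
import Pool.Agent.Work.MP_56b8f5_nt.UC.I_Rf
import Pool.Agent.Work.MP_56b8f5_nt.UC.I_Up1
import Pool.Agent.Work.MP_56b8f5_nt.UC.I_Bc
import Pool.Agent.Work.MP_a8fbd7_nt.OX.JK.Ja

/-!
MP_a8fbd7_nt, block OX, large value theorem of Jutila, part b: the `2k`-th power moment of a smooth
block over the differences of a separated set,
`∑_{s,t ∈ W} |∑_n w(n/N) n^{-i(s-t+y)}|^{2k} ≤ C T^ε (R N^{2k} + R^{3/2} T^{1/2} N^k)`, `R = |W|`.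
-/

open MeasureTheory Set Filter Topology

noncomputable section

namespace Pool.Agent.Work.MP_a8fbd7_nt.OX.JK

open Pool.Agent.Work.MP_56b8f5_nt.UC
open Pool.Agent.Work.MP_56b8f5_nt.UC.Up1_aux (E E_add E_conj norm_E ncpow_E sq_sum Dp_E Q)

/-- moments over differences -/
def StJb : Prop := ∀ w : ℝ → ℝ, IsWt w → ∀ (k : ℕ) (ε : ℝ), 1 ≤ k → 0 < ε → ∃ C : ℝ, 1 ≤ C ∧
  ∀ (T0 T N y : ℝ) (W : Finset ℝ), 1 ≤ T → 0 < N → N ≤ T → Sep W →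
    (∀ t ∈ W, T0 ≤ t ∧ t ≤ T0 + T) →
    ∑ s ∈ W, ∑ t ∈ W, ‖Bl w N (s - t + y)‖ ^ (2 * k) ≤
      C * T ^ ε * ((W.card : ℝ) * N ^ (2 * k) +
        (W.card : ℝ) * Real.sqrt W.card * (Real.sqrt T * N ^ k))

namespace Jb_aux

/-- the generalised key identity -/
lemma key' (F : Finset ℕ) (c : ℕ → ℂ) (W : Finset ℝ) :
    ((∑ s ∈ W, ∑ t ∈ W, ‖∑ n ∈ F, c n * E (-((s - t) * Real.log n))‖ ^ 2 : ℝ) : ℂ) =
    ∑ n ∈ F, ∑ m ∈ F, c n * (starRingEnd ℂ) (c m) *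
      ((‖Q W (fun x => x) (Real.log m - Real.log n)‖ ^ 2 : ℝ) : ℂ) := by
  have h1 : ∀ n m : ℕ, ((‖Q W (fun x => x) (Real.log m - Real.log n)‖ ^ 2 : ℝ) : ℂ) =
      ∑ s ∈ W, ∑ t ∈ W, E ((s - t) * (Real.log m - Real.log n)) := by
    intro n m
    have e := sq_sum W (fun x : ℝ => E (x * (Real.log m - Real.log n)))
    unfold Q
    rw [e]
    refine Finset.sum_congr rfl fun i _ => ?_
    refine Finset.sum_congr rfl fun j _ => ?_
    rw [E_conj, ← E_add]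
    congr 1
    ring
  have h2 : ∀ s t : ℝ, ((‖∑ n ∈ F, c n * E (-((s - t) * Real.log n))‖ ^ 2 : ℝ) : ℂ) =
      ∑ n ∈ F, ∑ m ∈ F, c n * (starRingEnd ℂ) (c m) *
        E ((s - t) * (Real.log m - Real.log n)) := by
    intro s t
    rw [sq_sum]
    refine Finset.sum_congr rfl fun n _ => ?_
    refine Finset.sum_congr rfl fun m _ => ?_
    rw [map_mul, E_conj]
    have : E ((s - t) * (Real.log m - Real.log n)) =
        E (-((s - t) * Real.log n)) * E (- -((s - t) * Real.log m)) := by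
      rw [← E_add]
      congr 1
      ring
    rw [this]
    ring
  rw [Complex.ofReal_sum]
  simp_rw [Complex.ofReal_sum, h1, h2]
  calc ∑ s ∈ W, ∑ t ∈ W, ∑ n ∈ F, ∑ m ∈ F, c n * (starRingEnd ℂ) (c m) *
        E ((s - t) * (Real.log m - Real.log n))
      = ∑ s ∈ W, ∑ n ∈ F, ∑ t ∈ W, ∑ m ∈ F, c n * (starRingEnd ℂ) (c m) *
        E ((s - t) * (Real.log m - Real.log n)) :=
        Finset.sum_congr rfl fun s _ => Finset.sum_comm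
    _ = ∑ n ∈ F, ∑ s ∈ W, ∑ t ∈ W, ∑ m ∈ F, c n * (starRingEnd ℂ) (c m) *
        E ((s - t) * (Real.log m - Real.log n)) := Finset.sum_comm
    _ = ∑ n ∈ F, ∑ s ∈ W, ∑ m ∈ F, ∑ t ∈ W, c n * (starRingEnd ℂ) (c m) *
        E ((s - t) * (Real.log m - Real.log n)) :=
        Finset.sum_congr rfl fun n _ => Finset.sum_congr rfl fun s _ => Finset.sum_comm
    _ = ∑ n ∈ F, ∑ m ∈ F, ∑ s ∈ W, ∑ t ∈ W, c n * (starRingEnd ℂ) (c m) *
        E ((s - t) * (Real.log m - Real.log n)) :=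
        Finset.sum_congr rfl fun n _ => Finset.sum_comm
    _ = _ := by
        refine Finset.sum_congr rfl fun n _ => Finset.sum_congr rfl fun m _ => ?_
        rw [Finset.mul_sum]
        refine Finset.sum_congr rfl fun s _ => ?_
        rw [Finset.mul_sum]

/-- positivity: the coefficients may be replaced by a majorant -/
lemma major (F : Finset ℕ) (c : ℕ → ℂ) (b : ℕ → ℝ) (A : ℝ) (W : Finset ℝ)
    (hb : ∀ n, 0 ≤ b n) (hA : 0 ≤ A) (hc : ∀ n ∈ F, ‖c n‖ ≤ A * b n) :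
    ∑ s ∈ W, ∑ t ∈ W, ‖∑ n ∈ F, c n * E (-((s - t) * Real.log n))‖ ^ 2 ≤
      A ^ 2 * ∑ s ∈ W, ∑ t ∈ W, ‖∑ n ∈ F, (b n : ℂ) * E (-((s - t) * Real.log n))‖ ^ 2 := by
  have h1 := key' F c W
  have h2 := key' F (fun n => (b n : ℂ)) W
  have h3 : ∑ s ∈ W, ∑ t ∈ W, ‖∑ n ∈ F, (b n : ℂ) * E (-((s - t) * Real.log n))‖ ^ 2 =
      ∑ n ∈ F, ∑ m ∈ F, b n * b m * ‖Q W (fun x => x) (Real.log m - Real.log n)‖ ^ 2 := by
    have : ((∑ s ∈ W, ∑ t ∈ W, ‖∑ n ∈ F, (b n : ℂ) * E (-((s - t) * Real.log n))‖ ^ 2 : ℝ) : ℂ) =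
        ((∑ n ∈ F, ∑ m ∈ F, b n * b m *
          ‖Q W (fun x => x) (Real.log m - Real.log n)‖ ^ 2 : ℝ) : ℂ) := by
      rw [h2]
      push_cast
      refine Finset.sum_congr rfl fun n _ => Finset.sum_congr rfl fun m _ => ?_
      rw [Complex.conj_ofReal]
    exact_mod_cast this
  have h4 : ∑ s ∈ W, ∑ t ∈ W, ‖∑ n ∈ F, c n * E (-((s - t) * Real.log n))‖ ^ 2 =
      ‖((∑ s ∈ W, ∑ t ∈ W, ‖∑ n ∈ F, c n * E (-((s - t) * Real.log n))‖ ^ 2 : ℝ) : ℂ)‖ := by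
    rw [Complex.norm_real, Real.norm_of_nonneg]
    exact Finset.sum_nonneg fun s _ => Finset.sum_nonneg fun t _ => by positivity
  rw [h4, h1, h3, Finset.mul_sum]
  refine (norm_sum_le _ _).trans (Finset.sum_le_sum fun n hn => ?_)
  rw [Finset.mul_sum]
  refine (norm_sum_le _ _).trans (Finset.sum_le_sum fun m hm => ?_)
  rw [norm_mul, norm_mul, RCLike.norm_conj, Complex.norm_real,
    Real.norm_of_nonneg (by positivity : (0 : ℝ) ≤ ‖Q W (fun x => x) (Real.log m - Real.log n)‖ ^ 2)]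
  have h5 : ‖c n‖ * ‖c m‖ ≤ (A * b n) * (A * b m) :=
    mul_le_mul (hc n hn) (hc m hm) (norm_nonneg _) (mul_nonneg hA (hb n))
  calc ‖c n‖ * ‖c m‖ * ‖Q W (fun x => x) (Real.log m - Real.log n)‖ ^ 2
      ≤ (A * b n) * (A * b m) * ‖Q W (fun x => x) (Real.log m - Real.log n)‖ ^ 2 := by gcongr
    _ = _ := by ring

end Jb_aux

open Jb_aux in
theorem jb (hJa : StJa) (hPw : StPw) (hBc : StBc) (hS2 : StS2) : StJb := by
  intro w hw k ε hk hε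
  have hk0 : (0 : ℝ) < k := by exact_mod_cast hk
  obtain ⟨c, C0, hc, hC0, hpw⟩ := hPw w hw k (ε / (4 * k)) hk (by positivity)
  obtain ⟨w1, hw1, hw1n, _, hw1o⟩ := Rf_aux.exists_wt c (c + C0 + 1) hc (by linarith)
  obtain ⟨CJ, hCJ1, hJ⟩ := hJa w1 hw1 (ε / 2) (by positivity)
  obtain ⟨_, _, _, CA, hCA1, hAb, _⟩ := hBc w hw
  obtain ⟨CC, hCC1, hcard⟩ := hS2
  obtain ⟨hw1s, a1, b1, ha1, hab1, hsupp1⟩ := hw1
  obtain ⟨K, hK⟩ : ∃ K : ℝ, K = (C0 * C0 ^ (ε / (4 * k))) ^ 2 * CJ := ⟨_, rfl⟩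
  have hK0 : 0 ≤ K := by rw [hK]; positivity
  refine ⟨1 + K + 2 * CA ^ (2 * k), ?_, ?_⟩
  · have : 0 ≤ 2 * CA ^ (2 * k) := by positivity
    linarith
  intro T0 T N y W hT hN hNT hSep hWT
  have hT0 : 0 < T := by linarith
  have hTe : 1 ≤ T ^ ε := Real.one_le_rpow hT hε.le
  rcases W.eq_empty_or_nonempty with hWe | hWne
  · subst hWe; simp
  obtain ⟨R, hRdef⟩ : ∃ R : ℝ, R = (W.card : ℝ) := ⟨_, rfl⟩
  have hR1 : 1 ≤ R := by
    rw [hRdef]; exact_mod_cast hWne.card_pos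
  have hR0 : 0 < R := by linarith
  have hRT : R ≤ 2 * T := by
    rw [hRdef]; exact (hcard W hSep).2.2 T0 T hT hWT
  rw [← hRdef]
  have hsR : Real.sqrt R * Real.sqrt R = R := Real.mul_self_sqrt hR0.le
  have hsR0 : 0 < Real.sqrt R := Real.sqrt_pos.mpr hR0
  have hsT0 : 0 < Real.sqrt T := Real.sqrt_pos.mpr hT0
  have hsRT : Real.sqrt R ≤ 2 * Real.sqrt T := by
    rw [Real.sqrt_le_left (by positivity), mul_pow, Real.sq_sqrt hT0.le]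
    linarith
  have hR2 : R ^ 2 ≤ 2 * (R * Real.sqrt R * Real.sqrt T) := by
    calc R ^ 2 = R * Real.sqrt R * Real.sqrt R := by rw [mul_assoc, hsR]; ring
      _ ≤ R * Real.sqrt R * (2 * Real.sqrt T) := by gcongr
      _ = _ := by ring
  obtain ⟨P, hP⟩ : ∃ P : ℝ, P = R * N ^ (2 * k) := ⟨_, rfl⟩
  obtain ⟨Z, hZ⟩ : ∃ Z : ℝ, Z = R * Real.sqrt R * (Real.sqrt T * N ^ k) := ⟨_, rfl⟩
  have hP0 : 0 ≤ P := by rw [hP]; positivity
  have hZ0 : 0 ≤ Z := by rw [hZ]; positivity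
  rw [← hP, ← hZ]
  have g1 : 0 ≤ 2 * CA ^ (2 * k) := by positivity
  rcases lt_or_ge N 1 with hN1 | hN1
  · calc ∑ s ∈ W, ∑ t ∈ W, ‖Bl w N (s - t + y)‖ ^ (2 * k)
        ≤ ∑ s ∈ W, ∑ t ∈ W, (CA * N) ^ (2 * k) :=
          Finset.sum_le_sum fun s _ => Finset.sum_le_sum fun t _ =>
            pow_le_pow_left₀ (norm_nonneg _) (hAb N _ hN) (2 * k)
      _ = R ^ 2 * (CA * N) ^ (2 * k) := by
          simp only [Finset.sum_const, nsmul_eq_mul, ← hRdef]; ring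
      _ ≤ (2 * (R * Real.sqrt R * Real.sqrt T)) * (CA ^ (2 * k) * N ^ k) := by
          gcongr
          rw [mul_pow]
          have : N ^ (2 * k) ≤ N ^ k := pow_le_pow_of_le_one hN.le hN1.le (by omega)
          gcongr
      _ = 2 * CA ^ (2 * k) * 1 * (0 + Z) := by rw [hZ]; ring
      _ ≤ 2 * CA ^ (2 * k) * T ^ ε * (P + Z) := by gcongr
      _ ≤ (1 + K + 2 * CA ^ (2 * k)) * T ^ ε * (P + Z) := by
          have : 0 ≤ T ^ ε * (P + Z) := by positivity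
          nlinarith
  obtain ⟨a, ha1', ha2, ha3⟩ := hpw N hN
  obtain ⟨N', hN'⟩ : ∃ N' : ℝ, N' = N ^ k := ⟨_, rfl⟩
  have hN'1 : 1 ≤ N' := by rw [hN']; exact one_le_pow₀ hN1
  have hN'0 : 0 < N' := by linarith
  rw [← hN'] at ha2 ha3
  obtain ⟨Y, hY⟩ : ∃ Y : ℕ, Y = ⌈C0 * N'⌉₊ + ⌊b1 * N'⌋₊ := ⟨_, rfl⟩
  have hY1 : C0 * N' ≤ Y := by
    rw [hY]; push_cast
    have := Nat.le_ceil (C0 * N')
    have : (0 : ℝ) ≤ (⌊b1 * N'⌋₊ : ℝ) := by positivity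
    linarith
  have hY2 : ⌊b1 * N'⌋₊ ≤ Y := by omega
  -- the majorant
  have hBlw1 : ∀ x : ℝ, Bl w1 N' x =
      ∑ n ∈ Finset.Icc 1 Y, ((w1 ((n : ℝ) / N') : ℝ) : ℂ) * E (-(x * Real.log n)) := by
    intro x
    rw [Bc_aux.Bl_eq ha1 hsupp1 hN'0 x]
    have hsub : Finset.Icc 1 ⌊b1 * N'⌋₊ ⊆ Finset.Icc 1 Y := Finset.Icc_subset_Icc_right hY2
    rw [Finset.sum_subset hsub]
    · refine Finset.sum_congr rfl fun n hn => ?_
      rw [ncpow_E (Finset.mem_Icc.1 hn).1]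
    · intro n hn hn2
      have h0 : w1 ((n : ℝ) / N') = 0 := by
        by_contra h
        apply hn2
        rw [Finset.mem_Icc]
        refine ⟨(Finset.mem_Icc.1 hn).1, Nat.le_floor ?_⟩
        have := (hsupp1 _ h).2
        rwa [div_le_iff₀ hN'0] at this
      rw [h0]; simp
  obtain ⟨A, hA⟩ : ∃ A : ℝ, A = C0 * (C0 * N') ^ (ε / (4 * k)) := ⟨_, rfl⟩
  have hA0 : 0 ≤ A := by rw [hA]; positivity
  have hmaj : ∀ n ∈ Finset.Icc 1 Y, ‖a n * E (-(y * Real.log n))‖ ≤ A * w1 ((n : ℝ) / N') := by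
    intro n hn
    rw [norm_mul, norm_E, mul_one]
    by_cases han : a n = 0
    · rw [han, norm_zero]
      exact mul_nonneg hA0 (hw1n _)
    · obtain ⟨h1, h2⟩ := ha2 n han
      have h3 : w1 ((n : ℝ) / N') = 1 := by
        apply hw1o
        · rw [le_div_iff₀ hN'0]; exact h1
        · rw [div_le_iff₀ hN'0]
          nlinarith
      rw [h3, mul_one, hA]
      refine (ha1' n).trans ?_
      gcongr
  have hpow : ∀ x : ℝ, ‖Bl w N (x + y)‖ ^ (2 * k) =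
      ‖∑ n ∈ Finset.Icc 1 Y, (a n * E (-(y * Real.log n))) * E (-(x * Real.log n))‖ ^ 2 := by
    intro x
    have h1 := ha3 (x + y) Y hY1
    rw [Dp_E] at h1
    have h2 : ‖Bl w N (x + y)‖ ^ (2 * k) = ‖Bl w N (x + y) ^ k‖ ^ 2 := by
      rw [norm_pow, ← pow_mul, mul_comm]
    rw [h2, h1]
    congr 2
    refine Finset.sum_congr rfl fun n _ => ?_
    rw [mul_assoc, ← E_add]
    congr 2
    ring
  have hmain : ∑ s ∈ W, ∑ t ∈ W, ‖Bl w N (s - t + y)‖ ^ (2 * k) ≤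
      A ^ 2 * ∑ s ∈ W, ∑ t ∈ W, ‖Bl w1 N' (s - t)‖ ^ 2 := by
    simp_rw [hpow, hBlw1]
    exact major (Finset.Icc 1 Y) (fun n => a n * E (-(y * Real.log n)))
      (fun n => w1 ((n : ℝ) / N')) A W (fun n => hw1n _) hA0 hmaj
  have h5 := hJ T0 T N' W hT hN'0 hSep hWT
  rw [← hRdef] at h5
  have hA2 : A ^ 2 ≤ (C0 * C0 ^ (ε / (4 * k))) ^ 2 * T ^ (ε / 2) := by
    have h6 : (C0 * N') ^ (ε / (4 * k)) = C0 ^ (ε / (4 * k)) * N' ^ (ε / (4 * k)) :=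
      Real.mul_rpow (by linarith) hN'0.le
    have h7 : (N' ^ (ε / (4 * k))) ^ 2 ≤ T ^ (ε / 2) := by
      have h8 : N' ≤ T ^ (k : ℝ) := by
        rw [hN', Real.rpow_natCast]
        exact pow_le_pow_left₀ hN.le hNT k
      calc (N' ^ (ε / (4 * k))) ^ 2 ≤ ((T ^ (k : ℝ)) ^ (ε / (4 * k))) ^ 2 := by gcongr
        _ = T ^ (ε / 2) := by
            rw [← Real.rpow_mul hT0.le, ← Real.rpow_natCast, ← Real.rpow_mul hT0.le]
            congr 1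
            field_simp
            norm_num
    rw [hA, h6]
    calc (C0 * (C0 ^ (ε / (4 * k)) * N' ^ (ε / (4 * k)))) ^ 2
        = (C0 * C0 ^ (ε / (4 * k))) ^ 2 * (N' ^ (ε / (4 * k))) ^ 2 := by ring
      _ ≤ _ := by gcongr
  have hTT : T ^ (ε / 2) * T ^ (ε / 2) = T ^ ε := by
    rw [← Real.rpow_add hT0]; congr 1; ring
  have hPZ : R * N' ^ 2 + R * Real.sqrt R * (Real.sqrt T * N') = P + Z := by
    rw [hP, hZ, hN', ← pow_mul, mul_comm k 2]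
  rw [hPZ] at h5
  calc ∑ s ∈ W, ∑ t ∈ W, ‖Bl w N (s - t + y)‖ ^ (2 * k)
      ≤ A ^ 2 * ∑ s ∈ W, ∑ t ∈ W, ‖Bl w1 N' (s - t)‖ ^ 2 := hmain
    _ ≤ ((C0 * C0 ^ (ε / (4 * k))) ^ 2 * T ^ (ε / 2)) * (CJ * T ^ (ε / 2) * (P + Z)) := by
        gcongr
    _ = K * (T ^ (ε / 2) * T ^ (ε / 2)) * (P + Z) := by rw [hK]; ring
    _ = K * T ^ ε * (P + Z) := by rw [hTT]
    _ ≤ (1 + K + 2 * CA ^ (2 * k)) * T ^ ε * (P + Z) := by
        have : 0 ≤ T ^ ε * (P + Z) := by positivity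
        nlinarith

end Pool.Agent.Work.MP_a8fbd7_nt.OX.JK
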