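import Mathlib
import Pool.Agent.Work.MP_56b8f5_nt.UC.Stmts
import Pool.Agent.Work.MP_a8fbd7_nt.OX.JK.Ja
import Pool.Agent.Work.MP_a8fbd7_nt.OX.JK.Jb

/-!
MP_a8fbd7_nt, block OX, large value theorem of Jutila, part c: the base inequality on one window
(`StJ0`), with the constant `T^ε`:
`R ≤ C T^ε (L²/V² + (L² T/V⁴)^k + T (L⁶/V⁸)^k)`.  For `k ≥ 1`, coefficients of modulus
`≤ 1` and a `1`-separated set `W` in an interval of length `T` on which the dyadic polynomial of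
length `L` is `≥ V`, with `R = |W|`:
`R ≤ C T^ε (L²/V² + T (L²/V²)^{1-1/k} L²/V⁴ + T (L⁶/V⁸)^k)`.
(With `V = L^σ`: `L^{2-2σ} + T L^{4-2/k-(6-2/k)σ} + T L^{(6-8σ)k}`.)
-/

open MeasureTheory Set Filter Topology

noncomputable section

namespace Pool.Agent.Work.MP_a8fbd7_nt.OX.JK

open Pool.Agent.Work.MP_56b8f5_nt.UC
open Pool.Agent.Work.MP_56b8f5_nt.UC.T2_aux
open Pool.Agent.Work.MP_56b8f5_nt.UB (ee om)

/-- base inequality, one window -/
def StJ0 : Prop := ∀ (k : ℕ) (ε : ℝ), 1 ≤ k → 0 < ε → ∃ C : ℝ, 1 ≤ C ∧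
  ∀ (T0 T L V : ℝ) (a : ℕ → ℂ) (W : Finset ℝ), 1 ≤ L → 1 ≤ T → 0 < V → (∀ n, ‖a n‖ ≤ 1) → Sep W →
    (∀ t ∈ W, T0 ≤ t ∧ t ≤ T0 + T) → (∀ t ∈ W, V ≤ ‖Sd L a t‖) →
    (W.card : ℝ) ≤ C * T ^ ε * (L ^ 2 / V ^ 2 + (L ^ 2 * T / V ^ 4) ^ k + T * (L ^ 6 / V ^ 8) ^ k)

namespace Jc_aux

/-- first mean with weight -/
def G1 (u : ℝ → ℝ) (N x : ℝ) : ℝ := ∫ y, ‖Bl u N (x + y)‖ * wy y

lemma G1_nonneg (u : ℝ → ℝ) (N x : ℝ) : 0 ≤ G1 u N x :=
  integral_nonneg (fun y => mul_nonneg (norm_nonneg _) (wy_nonneg y))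

/-- sum of `G1` over the pairs -/
lemma sum_G1 {u : ℝ → ℝ} (hcont : ∀ N : ℝ, 0 < N → Continuous (Bl u N)) {CB : ℝ}
    (hBb : ∀ N t : ℝ, 0 < N → ‖Bl u N t‖ ≤ CB * N) {W : Finset ℝ} {N B : ℝ} (hN : 0 < N)
    (hB : ∀ y : ℝ, ∑ s ∈ W, ∑ t ∈ W, ‖Bl u N (s - t + y)‖ ≤ B) :
    ∑ s ∈ W, ∑ t ∈ W, G1 u N (s - t) ≤ B * Kw := by
  have hi : ∀ x : ℝ, Integrable (fun y => ‖Bl u N (x + y)‖ * wy y) := by
    intro x
    refine int_bdd ((hcont _ hN).comp (by fun_prop)).norm (B := CB * N) (fun y => ?_)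
    rw [abs_norm]
    exact hBb _ _ hN
  have h0 : ∑ s ∈ W, ∑ t ∈ W, G1 u N (s - t) =
      ∫ y, ∑ s ∈ W, ∑ t ∈ W, ‖Bl u N (s - t + y)‖ * wy y := by
    rw [integral_finsetSum _ (fun s _ => integrable_finsetSum _ (fun t _ => hi (s - t)))]
    refine Finset.sum_congr rfl fun s _ => ?_
    rw [integral_finsetSum _ (fun t _ => hi (s - t))]
    rfl
  rw [h0]
  have h1 : ∫ y, ∑ s ∈ W, ∑ t ∈ W, ‖Bl u N (s - t + y)‖ * wy y ≤ ∫ y, B * wy y := by
    refine integral_mono (integrable_finsetSum _ (fun s _ => integrable_finsetSum _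
      (fun t _ => hi (s - t)))) (wy_int.const_mul _) (fun y => ?_)
    simp only
    simp only [← Finset.sum_mul]
    exact mul_le_mul_of_nonneg_right (hB y) (wy_nonneg y)
  refine h1.trans (le_of_eq ?_)
  rw [integral_const_mul]; rfl

/-- one pair -/
lemma pair1 {u : ℝ → ℝ} {CR : ℝ} (hCR : 1 ≤ CR)
    (hR : ∀ N D t : ℝ, 0 < N → 1 ≤ D → D ≤ |t| → |t| ≤ 2 * D →
      ‖Bl om N t‖ ≤ CR * (N / Real.sqrt D) * (∫ y : ℝ, ‖Bl u (D / N) (t + y)‖ / (1 + |y|) ^ 2) +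
        CR / D + CR * N / D ^ 2)
    {L D x : ℝ} (hL : 0 < L) (hD1 : 1 ≤ D) (hDx : D ≤ |x|) (hxD : |x| ≤ 2 * D) :
    ‖Bl om L x‖ ≤ 5 * CR * (1 + L / (1 + x ^ 2)) + CR * (L / Real.sqrt D * G1 u (D / L) x) := by
  have h3 := hR L D x hL hD1 hDx hxD
  have hJ' : (∫ y : ℝ, ‖Bl u (D / L) (x + y)‖ / (1 + |y|) ^ 2) = G1 u (D / L) x := by
    unfold G1
    congr 1; funext y; simp only [wy]; ring
  rw [hJ'] at h3
  have e1 : CR / D ≤ CR := div_le_self (by linarith) hD1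
  have hx2 : x ^ 2 ≤ 4 * D ^ 2 := by
    rw [← sq_abs]
    calc |x| ^ 2 ≤ (2 * D) ^ 2 := pow_le_pow_left₀ (abs_nonneg _) hxD 2
      _ = 4 * D ^ 2 := by ring
  have hD2 : 1 ≤ D ^ 2 := one_le_pow₀ hD1
  have e2 : CR * L / D ^ 2 ≤ 5 * CR * (L / (1 + x ^ 2)) := by
    have e4 : 5 * CR * (L / (1 + x ^ 2)) = CR * L / ((1 + x ^ 2) / 5) := by
      field_simp
    rw [e4]
    apply div_le_div_of_nonneg_left (by positivity) (by positivity)
    linarith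
  have e5 : 0 ≤ CR := by linarith
  calc ‖Bl om L x‖ ≤ CR * (L / Real.sqrt D) * G1 u (D / L) x + CR / D + CR * L / D ^ 2 := h3
    _ ≤ CR * (L / Real.sqrt D) * G1 u (D / L) x + 5 * CR + 5 * CR * (L / (1 + x ^ 2)) := by
        linarith
    _ = _ := by ring

/-- Hoelder over the pairs and root extraction -/
lemma holder {k : ℕ} (hk : 1 ≤ k) {R T M A r τ X : ℝ} (W : Finset ℝ) (f : ℝ → ℝ → ℝ)
    (hf : ∀ s t, 0 ≤ f s t) (hRW : R = (W.card : ℝ)) (hR : 1 ≤ R) (hT : 1 ≤ T) (hM : 0 < M)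
    (hA : 1 ≤ A) (hr : 0 < r) (hr4 : r ^ (4 * k) = R) (hτ : 0 < τ) (hτ4 : τ ^ (4 * k) = T)
    (hX : X = ∑ s ∈ W, ∑ t ∈ W, f s t)
    (h : ∑ s ∈ W, ∑ t ∈ W, f s t ^ (2 * k) ≤
      A * (R * M ^ (2 * k) + R * Real.sqrt R * (Real.sqrt T * M ^ k))) :
    X ≤ A * (R ^ 2 * M / r ^ 2 + R ^ 2 * τ * Real.sqrt M / r) := by
  have hR0 : 0 < R := by linarith
  have hX0 : 0 ≤ X := by
    rw [hX]; exact Finset.sum_nonneg fun s _ => Finset.sum_nonneg fun t _ => hf s t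
  have hr2 : r ^ (2 * k) = Real.sqrt R := by
    rw [← hr4, show 4 * k = 2 * k * 2 by ring, pow_mul _ (2 * k) 2, Real.sqrt_sq (by positivity)]
  have hτ2 : τ ^ (2 * k) = Real.sqrt T := by
    rw [← hτ4, show 4 * k = 2 * k * 2 by ring, pow_mul _ (2 * k) 2, Real.sqrt_sq (by positivity)]
  have hM2 : Real.sqrt M ^ (2 * k) = M ^ k := by
    rw [pow_mul, Real.sq_sqrt hM.le]
  have hsR : Real.sqrt R * Real.sqrt R = R := Real.mul_self_sqrt hR0.le
  have hsR0 : 0 < Real.sqrt R := Real.sqrt_pos.mpr hR0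
  obtain ⟨n, hn⟩ : ∃ n, 2 * k = n + 1 := ⟨2 * k - 1, by omega⟩
  have hcard : ((W ×ˢ W).card : ℝ) = R ^ 2 := by
    rw [Finset.card_product, hRW]; push_cast; ring
  have hH : X ^ (2 * k) ≤ (R ^ 2) ^ n * ∑ s ∈ W, ∑ t ∈ W, f s t ^ (2 * k) := by
    have h1 := pow_sum_div_card_le_sum_pow (s := W ×ˢ W) (f := fun x => f x.1 x.2)
      (fun x _ => hf x.1 x.2) n
    rw [hcard, Finset.sum_product, Finset.sum_product, ← hX, div_le_iff₀ (by positivity),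
      ← hn] at h1
    exact h1.trans (le_of_eq (mul_comm _ _))
  have e1 : (R ^ 2) ^ (2 * k) = (R ^ 2) ^ n * R ^ 2 := by rw [hn, pow_succ]
  have hp : (R ^ 2 * M / r ^ 2) ^ (2 * k) = (R ^ 2) ^ n * (R * M ^ (2 * k)) := by
    rw [div_pow, mul_pow, e1, ← pow_mul r 2 (2 * k), show 2 * (2 * k) = 4 * k by ring, hr4]
    field_simp
  have hq : (R ^ 2 * τ * Real.sqrt M / r) ^ (2 * k) =
      (R ^ 2) ^ n * (R * Real.sqrt R * (Real.sqrt T * M ^ k)) := by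
    rw [div_pow, mul_pow, mul_pow, e1, hr2, hτ2, hM2, div_eq_iff hsR0.ne']
    calc (R ^ 2) ^ n * R ^ 2 * Real.sqrt T * M ^ k
        = (R ^ 2) ^ n * (R * (Real.sqrt R * Real.sqrt R) * (Real.sqrt T * M ^ k)) := by
          rw [hsR]; ring
      _ = _ := by ring
  have hp0 : 0 ≤ R ^ 2 * M / r ^ 2 := by positivity
  have hq0 : 0 ≤ R ^ 2 * τ * Real.sqrt M / r := by positivity
  refine le_of_pow_le_pow_left₀ (n := 2 * k) (by omega) (by positivity) ?_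
  have hadd := pow_add_pow_le hp0 hq0 (n := 2 * k) (by omega)
  rw [hp, hq] at hadd
  have hA1 : A ≤ A ^ (2 * k) := le_self_pow₀ hA (by omega)
  rw [mul_pow]
  calc X ^ (2 * k) ≤ (R ^ 2) ^ n * ∑ s ∈ W, ∑ t ∈ W, f s t ^ (2 * k) := hH
    _ ≤ (R ^ 2) ^ n * (A * (R * M ^ (2 * k) + R * Real.sqrt R * (Real.sqrt T * M ^ k))) := by
        gcongr
    _ = A * ((R ^ 2) ^ n * (R * M ^ (2 * k)) +
          (R ^ 2) ^ n * (R * Real.sqrt R * (Real.sqrt T * M ^ k))) := by ring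
    _ ≤ A ^ (2 * k) * (R ^ 2 * M / r ^ 2 + R ^ 2 * τ * Real.sqrt M / r) ^ (2 * k) := by
        gcongr

/-- covering by windows -/
lemma split {W : Finset ℝ} {T0 T T1 B : ℝ} (hT1 : 0 < T1) (hT : 0 ≤ T)
    (hW : ∀ t ∈ W, T0 ≤ t ∧ t ≤ T0 + T)
    (hB : ∀ s0 : ℝ, ∀ W' : Finset ℝ, W' ⊆ W → (∀ t ∈ W', s0 ≤ t ∧ t ≤ s0 + T1) →
      (W'.card : ℝ) ≤ B) : (W.card : ℝ) ≤ (T / T1 + 1) * B := by
  have hB0 : 0 ≤ B := by
    have := hB 0 ∅ (Finset.empty_subset _) (by simp)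
    simpa using this
  have hmaps : ∀ t ∈ W, ⌊(t - T0) / T1⌋₊ ∈ Finset.range (⌊T / T1⌋₊ + 1) := by
    intro t ht
    rw [Finset.mem_range, Nat.lt_succ_iff]
    apply Nat.floor_mono
    have := (hW t ht).2
    gcongr
    linarith
  rw [Finset.card_eq_sum_card_fiberwise hmaps]
  push_cast
  have h1 : ∀ j ∈ Finset.range (⌊T / T1⌋₊ + 1),
      (({t ∈ W | ⌊(t - T0) / T1⌋₊ = j}).card : ℝ) ≤ B := by
    intro j _
    apply hB (T0 + j * T1) _ (Finset.filter_subset _ _)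
    intro t ht
    rw [Finset.mem_filter] at ht
    have h0 : 0 ≤ (t - T0) / T1 := div_nonneg (by linarith [(hW t ht.1).1]) hT1.le
    have h2 := Nat.floor_le h0
    have h3 := Nat.lt_floor_add_one ((t - T0) / T1)
    rw [ht.2] at h2 h3
    rw [le_div_iff₀ hT1] at h2
    rw [div_lt_iff₀ hT1] at h3
    constructor <;> nlinarith
  calc ∑ j ∈ Finset.range (⌊T / T1⌋₊ + 1), (({t ∈ W | ⌊(t - T0) / T1⌋₊ = j}).card : ℝ)
      ≤ ∑ j ∈ Finset.range (⌊T / T1⌋₊ + 1), B := Finset.sum_le_sum h1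
    _ = ((⌊T / T1⌋₊ : ℝ) + 1) * B := by
        rw [Finset.sum_const, nsmul_eq_mul, Finset.card_range]; push_cast; ring
    _ ≤ (T / T1 + 1) * B := by
        have := Nat.floor_le (div_nonneg hT hT1.le)
        gcongr

/-- from one of three inequalities -/
lemma three {X Y1 Y2 Y3 H : ℝ} (h : X ≤ H * (Y1 + Y2 + Y3)) :
    X ≤ 3 * H * Y1 ∨ X ≤ 3 * H * Y2 ∨ X ≤ 3 * H * Y3 := by
  by_contra hcon
  push Not at hcon
  obtain ⟨h1, h2, h3⟩ := hcon
  nlinarith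

end Jc_aux

open Jc_aux in
theorem j0 (hDu : StDu) (hRf : StRf) (hJb : StJb) (hBc : StBc) (hS2 : StS2) : StJ0 := by
  intro k ε hk hε
  have hk0 : (0 : ℝ) < k := by exact_mod_cast hk
  have hk1 : (1 : ℝ) ≤ k := by exact_mod_cast hk
  obtain ⟨e, he⟩ : ∃ e : ℝ, e = ε / (8 * k) := ⟨_, rfl⟩
  have he0 : 0 < e := by rw [he]; positivity
  obtain ⟨u, hu, hRf'⟩ := hRf om isWt_om
  obtain ⟨CR, hCR1, hR⟩ := hRf' 2 le_rfl
  obtain ⟨CJ, hCJ1, hJ⟩ := hJb u hu k e hk he0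
  obtain ⟨_, hcont, _, CB, hCB1, hBb, _⟩ := hBc u hu
  obtain ⟨_, _, _, CA, hCA1, hAb, _⟩ := hBc om isWt_om
  obtain ⟨CC, hCC1, hcard⟩ := hS2
  have hlog2 : 0 < Real.log 2 := Real.log_pos (by norm_num)
  obtain ⟨C5, hC5⟩ : ∃ C5 : ℝ, C5 = 1 / e / Real.log 2 + 1 := ⟨_, rfl⟩
  have hC50 : 0 ≤ C5 := by rw [hC5]; positivity
  have hKw := Kw_nonneg
  obtain ⟨A1, hA1⟩ : ∃ A1 : ℝ, A1 = 5 * CR + CA := ⟨_, rfl⟩
  have hA10 : 0 ≤ A1 := by rw [hA1]; positivity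
  obtain ⟨K, hK⟩ : ∃ K : ℝ, K = 1 + A1 * (2 + CC) + CR * CJ * Kw * C5 := ⟨_, rfl⟩
  have hK1 : 1 ≤ K := by
    rw [hK]
    have : 0 ≤ A1 * (2 + CC) := by positivity
    have : 0 ≤ CR * CJ * Kw * C5 := by positivity
    linarith
  refine ⟨(6 * K) ^ (4 * k), one_le_pow₀ (by linarith), ?_⟩
  intro T0 T L V a W hL hT hV ha hSep hWT hlarge
  have hT0 : 0 < T := by linarith
  have hL0 : 0 < L := by linarith
  have hTe : 1 ≤ T ^ ε := Real.one_le_rpow hT hε.le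
  have hTee : 1 ≤ T ^ e := Real.one_le_rpow hT he0.le
  rcases W.eq_empty_or_nonempty with hWe | hWne
  · subst hWe
    rw [Finset.card_empty, Nat.cast_zero]; positivity
  obtain ⟨R, hRdef⟩ : ∃ R : ℝ, R = (W.card : ℝ) := ⟨_, rfl⟩
  have hR1 : 1 ≤ R := by
    rw [hRdef]; exact_mod_cast hWne.card_pos
  have hR0 : 0 < R := by linarith
  have hRT : R ≤ 2 * T := by
    rw [hRdef]; exact (hcard W hSep).2.2 T0 T hT hWT
  rw [← hRdef]
  -- roots
  obtain ⟨r, hr⟩ : ∃ r : ℝ, r = R ^ (1 / (4 * (k : ℝ))) := ⟨_, rfl⟩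
  obtain ⟨τ, hτ⟩ : ∃ τ : ℝ, τ = T ^ (1 / (4 * (k : ℝ))) := ⟨_, rfl⟩
  have hr0 : 0 < r := by rw [hr]; positivity
  have hτ0 : 0 < τ := by rw [hτ]; positivity
  have hr4 : r ^ (4 * k) = R := by
    rw [hr, ← Real.rpow_natCast, ← Real.rpow_mul hR0.le]
    push_cast
    rw [one_div, inv_mul_cancel₀ (by positivity), Real.rpow_one]
  have hτ4 : τ ^ (4 * k) = T := by
    rw [hτ, ← Real.rpow_natCast, ← Real.rpow_mul hT0.le]
    push_cast
    rw [one_div, inv_mul_cancel₀ (by positivity), Real.rpow_one]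
  have hrτ : r ≤ 2 * τ := by
    refine le_of_pow_le_pow_left₀ (n := 4 * k) (by omega) (by positivity) ?_
    rw [mul_pow, hr4, hτ4]
    refine hRT.trans ?_
    have : (2 : ℝ) ≤ 2 ^ (4 * k) := le_self_pow₀ (by norm_num) (by omega)
    gcongr
  obtain ⟨Y1, hY1⟩ : ∃ Y1 : ℝ, Y1 = L * R := ⟨_, rfl⟩
  obtain ⟨Y2, hY2⟩ : ∃ Y2 : ℝ, Y2 = R ^ 2 * Real.sqrt T / r ^ 2 := ⟨_, rfl⟩
  obtain ⟨Y3, hY3⟩ : ∃ Y3 : ℝ, Y3 = R ^ 2 * τ * Real.sqrt L / r := ⟨_, rfl⟩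
  have hY10 : 0 ≤ Y1 := by rw [hY1]; positivity
  have hY20 : 0 ≤ Y2 := by rw [hY2]; positivity
  have hY30 : 0 ≤ Y3 := by rw [hY3]; positivity
  have hsL1 : 1 ≤ Real.sqrt L := Real.one_le_sqrt.mpr hL
  have hR2Y3 : R ^ 2 ≤ 2 * Y3 := by
    rw [hY3, ← mul_div_assoc, le_div_iff₀ hr0]
    calc R ^ 2 * r ≤ R ^ 2 * (2 * τ) := by gcongr
      _ = R ^ 2 * (2 * τ) * 1 := by ring
      _ ≤ R ^ 2 * (2 * τ) * Real.sqrt L := by gcongr
      _ = _ := by ring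
  obtain ⟨I0, hI0⟩ : ∃ I0 : ℕ, I0 = ⌊Real.log T / Real.log 2⌋₊ + 1 := ⟨_, rfl⟩
  obtain ⟨S, hSdef⟩ : ∃ S : Finset ℕ, S = (Finset.range I0).filter (fun i => (2 : ℝ) ^ i ≤ T) :=
    ⟨_, rfl⟩
  have hScard : (S.card : ℝ) ≤ C5 * T ^ e := by
    have h1 : (S.card : ℝ) ≤ I0 := by
      rw [hSdef]
      exact_mod_cast (Finset.card_filter_le _ _).trans (by simp)
    have h2 : (I0 : ℝ) ≤ Real.log T / Real.log 2 + 1 := by
      rw [hI0]; push_cast
      have := Nat.floor_le (div_nonneg (Real.log_nonneg hT) hlog2.le)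
      linarith
    have h3 : Real.log T ≤ T ^ e / e := Real.log_le_rpow_div hT0.le he0
    calc (S.card : ℝ) ≤ Real.log T / Real.log 2 + 1 := h1.trans h2
      _ ≤ T ^ e / e / Real.log 2 + T ^ e := by gcongr
      _ = C5 * T ^ e := by rw [hC5]; ring
  have hpair : ∀ s ∈ W, ∀ t ∈ W, ‖Bl om L (s - t)‖ ≤
      A1 * (1 + L / (1 + (s - t) ^ 2)) +
        ∑ i ∈ S, CR * (L / Real.sqrt (2 ^ i) * G1 u (2 ^ i / L) (s - t)) := by
    intro s hs t ht
    have hxT : |s - t| ≤ T := by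
      rw [abs_le]
      constructor <;> linarith [(hWT s hs).1, (hWT s hs).2, (hWT t ht).1, (hWT t ht).2]
    have hsum0 : 0 ≤ ∑ i ∈ S, CR * (L / Real.sqrt (2 ^ i) * G1 u (2 ^ i / L) (s - t)) := by
      refine Finset.sum_nonneg (fun i _ => ?_)
      have := G1_nonneg u (2 ^ i / L) (s - t)
      positivity
    have hq0 : 0 ≤ L / (1 + (s - t) ^ 2) := by positivity
    by_cases hne : s = t
    · subst hne
      have h1 := hAb L (s - s) hL0
      have h3 : L / (1 + (s - s) ^ 2) = L := by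
        rw [sub_self]; norm_num
      rw [h3]
      have h4 : CA * L ≤ A1 * (1 + L) := by
        rw [hA1]
        nlinarith
      linarith
    · have h1x : 1 ≤ |s - t| := hSep s hs t ht hne
      obtain ⟨i, hi1, hi2⟩ := exists_nat_pow_near (x := |s - t|) (y := (2 : ℝ)) h1x (by norm_num)
      have hiT : (2 : ℝ) ^ i ≤ T := hi1.trans hxT
      have hiS : i ∈ S := by
        rw [hSdef, Finset.mem_filter, Finset.mem_range]
        refine ⟨?_, hiT⟩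
        rw [hI0]
        have h3 : (i : ℝ) * Real.log 2 ≤ Real.log T := by
          rw [← Real.log_pow]
          exact Real.log_le_log (by positivity) hiT
        have h4 : i ≤ ⌊Real.log T / Real.log 2⌋₊ := by
          apply Nat.le_floor
          rw [le_div_iff₀ hlog2]; exact h3
        omega
      have h5 := pair1 hCR1 hR (D := 2 ^ i) hL0
        (one_le_pow₀ (by norm_num)) hi1 (by rw [pow_succ] at hi2; linarith)
      have h6 : CR * (L / Real.sqrt (2 ^ i) * G1 u (2 ^ i / L) (s - t)) ≤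
          ∑ i ∈ S, CR * (L / Real.sqrt (2 ^ i) * G1 u (2 ^ i / L) (s - t)) := by
        refine Finset.single_le_sum
          (f := fun i : ℕ => CR * (L / Real.sqrt (2 ^ i) * G1 u (2 ^ i / L) (s - t)))
          (fun j _ => ?_) hiS
        have := G1_nonneg u (2 ^ j / L) (s - t)
        positivity
      have h7 : 5 * CR * (1 + L / (1 + (s - t) ^ 2)) ≤ A1 * (1 + L / (1 + (s - t) ^ 2)) := by
        rw [hA1]
        gcongr
        linarith
      linarith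
  -- one scale
  have hscale : ∀ i ∈ S, ∑ s ∈ W, ∑ t ∈ W, (L / Real.sqrt (2 ^ i) * G1 u (2 ^ i / L) (s - t)) ≤
      CJ * T ^ e * Kw * (Y2 + Y3) := by
    intro i hi
    rw [hSdef, Finset.mem_filter] at hi
    have hDT : (2 : ℝ) ^ i ≤ T := hi.2
    obtain ⟨D, hD⟩ : ∃ D : ℝ, D = 2 ^ i := ⟨_, rfl⟩
    rw [← hD] at hDT ⊢
    have hD0' : 0 < D := by rw [hD]; positivity
    have hNp : 0 < D / L := by positivity
    have hNT2 : D / L ≤ T := (div_le_self hD0'.le hL).trans hDT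
    have hsD : Real.sqrt D * Real.sqrt D = D := Real.mul_self_sqrt hD0'.le
    have hsD0 : 0 < Real.sqrt D := Real.sqrt_pos.mpr hD0'
    have hsL : Real.sqrt L * Real.sqrt L = L := Real.mul_self_sqrt hL0.le
    have hsL0 : 0 < Real.sqrt L := by linarith
    have hB : ∀ y : ℝ, ∑ s ∈ W, ∑ t ∈ W, ‖Bl u (D / L) (s - t + y)‖ ≤
        CJ * T ^ e * (R ^ 2 * (D / L) / r ^ 2 + R ^ 2 * τ * Real.sqrt (D / L) / r) := by
      intro y
      have h1 := hJ T0 T (D / L) y W hT hNp hNT2 hSep hWT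
      rw [← hRdef] at h1
      refine holder hk W (fun s t => ‖Bl u (D / L) (s - t + y)‖) (fun s t => norm_nonneg _) hRdef
        hR1 hT hNp ?_ hr0 hr4 hτ0 hτ4 rfl h1
      nlinarith
    have h2 := sum_G1 hcont (fun N t hN => hBb N t hN) hNp hB
    have e1 : Real.sqrt (D / L) = Real.sqrt D / Real.sqrt L := Real.sqrt_div hD0'.le L
    have hsDT : Real.sqrt D ≤ Real.sqrt T := Real.sqrt_le_sqrt hDT
    calc ∑ s ∈ W, ∑ t ∈ W, (L / Real.sqrt D * G1 u (D / L) (s - t))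
        = L / Real.sqrt D * ∑ s ∈ W, ∑ t ∈ W, G1 u (D / L) (s - t) := by
          simp only [Finset.mul_sum]
      _ ≤ L / Real.sqrt D * (CJ * T ^ e * (R ^ 2 * (D / L) / r ^ 2 +
            R ^ 2 * τ * Real.sqrt (D / L) / r) * Kw) := by gcongr
      _ = CJ * T ^ e * Kw * (R ^ 2 * (D / Real.sqrt D) / r ^ 2 +
            R ^ 2 * τ * (L / Real.sqrt L) / r) := by
          rw [e1]
          field_simp
      _ = CJ * T ^ e * Kw * (R ^ 2 * Real.sqrt D / r ^ 2 + R ^ 2 * τ * Real.sqrt L / r) := by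
          have e2 : D / Real.sqrt D = Real.sqrt D := by
            rw [div_eq_iff hsD0.ne']; exact hsD.symm
          have e3 : L / Real.sqrt L = Real.sqrt L := by
            rw [div_eq_iff hsL0.ne']; exact hsL.symm
          rw [e2, e3]
      _ ≤ CJ * T ^ e * Kw * (Y2 + Y3) := by
          rw [hY2, hY3]
          gcongr
  have hnear : ∑ s ∈ W, ∑ t ∈ W, A1 * (1 + L / (1 + (s - t) ^ 2)) ≤
      A1 * (2 + CC) * (Y1 + Y2 + Y3) := by
    have h1 : ∀ s ∈ W, ∑ t ∈ W, A1 * (1 + L / (1 + (s - t) ^ 2)) ≤ A1 * (R + CC * L) := by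
      intro s _
      rw [← Finset.mul_sum]
      have h2 := (hcard W hSep).1 s
      have h3 : ∑ t ∈ W, (1 + L / (1 + (s - t) ^ 2)) ≤ R + CC * L := by
        rw [Finset.sum_add_distrib, Finset.sum_const, nsmul_eq_mul, mul_one, ← hRdef]
        have h4 : ∑ t ∈ W, L / (1 + (s - t) ^ 2) = L * ∑ t ∈ W, 1 / (1 + (s - t) ^ 2) := by
          rw [Finset.mul_sum]
          refine Finset.sum_congr rfl fun t _ => ?_
          ring
        rw [h4]
        have : L * ∑ t ∈ W, 1 / (1 + (s - t) ^ 2) ≤ L * CC := by gcongr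
        linarith
      gcongr
    calc ∑ s ∈ W, ∑ t ∈ W, A1 * (1 + L / (1 + (s - t) ^ 2))
        ≤ ∑ s ∈ W, A1 * (R + CC * L) := Finset.sum_le_sum h1
      _ = A1 * (R ^ 2 + CC * Y1) := by
          rw [Finset.sum_const, nsmul_eq_mul, ← hRdef, hY1]; ring
      _ ≤ A1 * ((2 + CC) * (Y1 + Y2 + Y3)) := by
          have : R ^ 2 + CC * Y1 ≤ (2 + CC) * (Y1 + Y2 + Y3) := by
            have : 0 ≤ CC * Y2 := by positivity
            have : 0 ≤ CC * Y3 := by positivity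
            nlinarith
          gcongr
      _ = _ := by ring
  have htot : ∑ s ∈ W, ∑ t ∈ W, ‖Bl om L (s - t)‖ ≤ K * (T ^ e * T ^ e) * (Y1 + Y2 + Y3) := by
    have step1 : ∑ s ∈ W, ∑ t ∈ W, ‖Bl om L (s - t)‖ ≤
        ∑ s ∈ W, ∑ t ∈ W, A1 * (1 + L / (1 + (s - t) ^ 2)) +
          ∑ i ∈ S, CR * ∑ s ∈ W, ∑ t ∈ W,
            (L / Real.sqrt (2 ^ i) * G1 u (2 ^ i / L) (s - t)) := by
      calc ∑ s ∈ W, ∑ t ∈ W, ‖Bl om L (s - t)‖
          ≤ ∑ s ∈ W, ∑ t ∈ W, (A1 * (1 + L / (1 + (s - t) ^ 2)) +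
              ∑ i ∈ S, CR * (L / Real.sqrt (2 ^ i) * G1 u (2 ^ i / L) (s - t))) :=
            Finset.sum_le_sum (fun s hs => Finset.sum_le_sum (fun t ht => hpair s hs t ht))
        _ = _ := by
            simp only [Finset.sum_add_distrib]
            congr 1
            simp only [Finset.mul_sum]
            symm
            rw [Finset.sum_comm]
            refine Finset.sum_congr rfl (fun s _ => ?_)
            rw [Finset.sum_comm]
    have step2 : ∑ i ∈ S, CR * ∑ s ∈ W, ∑ t ∈ W,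
          (L / Real.sqrt (2 ^ i) * G1 u (2 ^ i / L) (s - t)) ≤
        CR * CJ * Kw * C5 * (T ^ e * T ^ e) * (Y2 + Y3) := by
      calc ∑ i ∈ S, CR * ∑ s ∈ W, ∑ t ∈ W,
            (L / Real.sqrt (2 ^ i) * G1 u (2 ^ i / L) (s - t))
          ≤ ∑ i ∈ S, CR * (CJ * T ^ e * Kw * (Y2 + Y3)) := by
            refine Finset.sum_le_sum (fun i hi => ?_)
            have := hscale i hi
            gcongr
        _ = S.card * (CR * (CJ * T ^ e * Kw * (Y2 + Y3))) := by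
            rw [Finset.sum_const, nsmul_eq_mul]
        _ ≤ C5 * T ^ e * (CR * (CJ * T ^ e * Kw * (Y2 + Y3))) := by gcongr
        _ = _ := by ring
    have hTT1 : 1 ≤ T ^ e * T ^ e := by nlinarith
    have hYY : 0 ≤ Y1 + Y2 + Y3 := by positivity
    calc ∑ s ∈ W, ∑ t ∈ W, ‖Bl om L (s - t)‖
        ≤ A1 * (2 + CC) * (Y1 + Y2 + Y3) +
          CR * CJ * Kw * C5 * (T ^ e * T ^ e) * (Y2 + Y3) := by linarith
      _ ≤ A1 * (2 + CC) * (T ^ e * T ^ e) * (Y1 + Y2 + Y3) +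
          CR * CJ * Kw * C5 * (T ^ e * T ^ e) * (Y1 + Y2 + Y3) := by
          have g1 : A1 * (2 + CC) * (Y1 + Y2 + Y3) ≤
              A1 * (2 + CC) * (T ^ e * T ^ e) * (Y1 + Y2 + Y3) := by
            have : 0 ≤ A1 * (2 + CC) := by positivity
            have g3 : A1 * (2 + CC) * 1 ≤ A1 * (2 + CC) * (T ^ e * T ^ e) := by gcongr
            rw [mul_one] at g3
            gcongr
          have g2 : CR * CJ * Kw * C5 * (T ^ e * T ^ e) * (Y2 + Y3) ≤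
              CR * CJ * Kw * C5 * (T ^ e * T ^ e) * (Y1 + Y2 + Y3) := by
            gcongr
            linarith
          linarith
      _ ≤ K * (T ^ e * T ^ e) * (Y1 + Y2 + Y3) := by
          rw [hK]
          have : 0 ≤ (T ^ e * T ^ e) * (Y1 + Y2 + Y3) := by positivity
          nlinarith
  -- duality
  obtain ⟨c, hc1, hc2⟩ := hDu.1 L V a W hL hV.le ha hlarge
  rw [← hRdef] at hc2
  have hdu : V ^ 2 * R ^ 2 ≤ 2 * L * ∑ s ∈ W, ∑ t ∈ W, ‖Bl om L (s - t)‖ := by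
    refine hc2.trans ?_
    have h1 : (∑ s ∈ W, ∑ t ∈ W, (starRingEnd ℂ) (c s) * Bl om L (s - t) * c t).re ≤
        ∑ s ∈ W, ∑ t ∈ W, ‖Bl om L (s - t)‖ := by
      refine (Complex.re_le_norm _).trans ((norm_sum_le _ _).trans
        (Finset.sum_le_sum fun s _ => (norm_sum_le _ _).trans
          (Finset.sum_le_sum fun t _ => ?_)))
      rw [norm_mul, norm_mul, RCLike.norm_conj, hc1, hc1, one_mul, mul_one]
    gcongr
  obtain ⟨H, hH⟩ : ∃ H : ℝ, H = 6 * K * (T ^ e * T ^ e) := ⟨_, rfl⟩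
  have hH1 : 1 ≤ H := by
    rw [hH]
    have : 1 ≤ T ^ e * T ^ e := by nlinarith
    nlinarith
  have hmain : V ^ 2 * R ^ 2 ≤ 3 * (2 * K * (T ^ e * T ^ e) * L) * Y1 ∨
      V ^ 2 * R ^ 2 ≤ 3 * (2 * K * (T ^ e * T ^ e) * L) * Y2 ∨
      V ^ 2 * R ^ 2 ≤ 3 * (2 * K * (T ^ e * T ^ e) * L) * Y3 := by
    apply three
    calc V ^ 2 * R ^ 2 ≤ 2 * L * ∑ s ∈ W, ∑ t ∈ W, ‖Bl om L (s - t)‖ := hdu
      _ ≤ 2 * L * (K * (T ^ e * T ^ e) * (Y1 + Y2 + Y3)) := by gcongr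
      _ = _ := by ring
  have hHL : 3 * (2 * K * (T ^ e * T ^ e) * L) = H * L := by rw [hH]; ring
  rw [hHL] at hmain
  have hHpow : H ^ (4 * k) = (6 * K) ^ (4 * k) * T ^ ε := by
    rw [hH, mul_pow]
    congr 1
    rw [← Real.rpow_add hT0, ← Real.rpow_natCast, ← Real.rpow_mul hT0.le]
    congr 1
    rw [he]
    push_cast
    field_simp
    norm_num
  rw [← hHpow]
  have hH2k : H ^ (2 * k) ≤ H ^ (4 * k) := pow_le_pow_right₀ hH1 (by omega)
  have hH1k : H ≤ H ^ (4 * k) := le_self_pow₀ hH1 (by omega)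
  have hB1 : 0 ≤ L ^ 2 / V ^ 2 := by positivity
  have hB2 : 0 ≤ (L ^ 2 * T / V ^ 4) ^ k := by positivity
  have hB3 : 0 ≤ T * (L ^ 6 / V ^ 8) ^ k := by positivity
  have hHp : 0 ≤ H ^ (4 * k) := by positivity
  have hR20 : 0 < R ^ 2 := by positivity
  rcases hmain with h | h | h
  · -- the diagonal term
    have h1 : R ≤ H * (L ^ 2 / V ^ 2) := by
      rw [hY1] at h
      rw [← mul_div_assoc, le_div_iff₀ (by positivity)]
      have h2 : (V ^ 2 * R) * R ≤ (H * L ^ 2) * R := by nlinarith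
      have := le_of_mul_le_mul_right h2 hR0
      linarith
    calc R ≤ H * (L ^ 2 / V ^ 2) := h1
      _ ≤ H ^ (4 * k) * (L ^ 2 / V ^ 2) := by gcongr
      _ ≤ _ := mul_le_mul_of_nonneg_left (by linarith) hHp
  · have h1 : r ^ 2 ≤ H * L * Real.sqrt T / V ^ 2 := by
      rw [hY2] at h
      rw [le_div_iff₀ (by positivity)]
      have h2 : V ^ 2 * R ^ 2 * r ^ 2 ≤ H * L * (R ^ 2 * Real.sqrt T) := by
        calc V ^ 2 * R ^ 2 * r ^ 2 ≤ H * L * (R ^ 2 * Real.sqrt T / r ^ 2) * r ^ 2 := by gcongr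
          _ = _ := by field_simp
      have h3 : (r ^ 2 * V ^ 2) * R ^ 2 ≤ (H * L * Real.sqrt T) * R ^ 2 := by linarith
      exact le_of_mul_le_mul_right h3 hR20
    have h4 : R ≤ H ^ (2 * k) * (L ^ 2 * T / V ^ 4) ^ k := by
      calc R = (r ^ 2) ^ (2 * k) := by rw [← pow_mul, ← hr4]; congr 1; ring
        _ ≤ (H * L * Real.sqrt T / V ^ 2) ^ (2 * k) := by gcongr
        _ = H ^ (2 * k) * (L ^ 2 * T / V ^ 4) ^ k := by
            rw [show H * L * Real.sqrt T / V ^ 2 = H * (L * Real.sqrt T / V ^ 2) by ring, mul_pow]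
            congr 1
            rw [pow_mul]
            congr 1
            rw [div_pow, mul_pow, Real.sq_sqrt hT0.le, ← pow_mul]
    calc R ≤ H ^ (2 * k) * (L ^ 2 * T / V ^ 4) ^ k := h4
      _ ≤ H ^ (4 * k) * (L ^ 2 * T / V ^ 4) ^ k := by gcongr
      _ ≤ _ := mul_le_mul_of_nonneg_left (by linarith) hHp
  · have h1 : r ≤ H * L * Real.sqrt L * τ / V ^ 2 := by
      rw [hY3] at h
      rw [le_div_iff₀ (by positivity)]
      have h2 : V ^ 2 * R ^ 2 * r ≤ H * L * (R ^ 2 * τ * Real.sqrt L) := by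
        calc V ^ 2 * R ^ 2 * r ≤ H * L * (R ^ 2 * τ * Real.sqrt L / r) * r := by gcongr
          _ = _ := by field_simp
      have h3 : (r * V ^ 2) * R ^ 2 ≤ (H * L * Real.sqrt L * τ) * R ^ 2 := by linarith
      exact le_of_mul_le_mul_right h3 hR20
    have h4 : R ≤ H ^ (4 * k) * (T * (L ^ 6 / V ^ 8) ^ k) := by
      calc R = r ^ (4 * k) := hr4.symm
        _ ≤ (H * L * Real.sqrt L * τ / V ^ 2) ^ (4 * k) := by gcongr
        _ = H ^ (4 * k) * (T * (L ^ 6 / V ^ 8) ^ k) := by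
            rw [show H * L * Real.sqrt L * τ / V ^ 2 = H * (τ * (L * Real.sqrt L / V ^ 2)) by ring,
              mul_pow, mul_pow, hτ4]
            congr 2
            rw [pow_mul]
            congr 1
            have hsL4 : Real.sqrt L ^ 4 = L ^ 2 := by
              rw [show (4 : ℕ) = 2 * 2 by norm_num, pow_mul, Real.sq_sqrt hL0.le]
            rw [div_pow, mul_pow, hsL4, ← pow_mul]
            ring
    calc R ≤ H ^ (4 * k) * (T * (L ^ 6 / V ^ 8) ^ k) := h4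
      _ ≤ _ := mul_le_mul_of_nonneg_left (by linarith) hHp

end Pool.Agent.Work.MP_a8fbd7_nt.OX.JK
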