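import Mathlib
import Pool.Agent.Work.MP_56b8f5_nt.UC.Stmts
import Pool.Agent.Work.MP_a8fbd7_nt.OX.JK.Jc

/-!
MP_a8fbd7_nt, block OX, large value theorem of Jutila, part d.  For `k ≥ 1`, coefficients of modulus
`≤ 1` and a `1`-separated set `W` in an interval of length `T` on which the dyadic polynomial of
length `L` is `≥ V`, with `R = |W|`:
`R ≤ C T^ε (L²/V² + T (L²/V²)^{1-1/k} L²/V⁴ + T (L⁶/V⁸)^k)`.
(With `V = L^σ`: `L^{2-2σ} + T L^{4-2/k-(6-2/k)σ} + T L^{(6-8σ)k}`.)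
It follows from `StJ0` by Huxley's subdivision.
-/

open MeasureTheory Set Filter Topology

noncomputable section

namespace Pool.Agent.Work.MP_a8fbd7_nt.OX.JK

open Pool.Agent.Work.MP_56b8f5_nt.UC
open Pool.Agent.Work.MP_56b8f5_nt.UC.T2_aux
open Pool.Agent.Work.MP_56b8f5_nt.UB (ee om)

/-- Jutila's large value theorem -/
def StJut : Prop := ∀ (k : ℕ) (ε : ℝ), 1 ≤ k → 0 < ε → ∃ C : ℝ, 1 ≤ C ∧
  ∀ (T0 T L V : ℝ) (a : ℕ → ℂ) (W : Finset ℝ), 1 ≤ L → 1 ≤ T → 0 < V → (∀ n, ‖a n‖ ≤ 1) → Sep W →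
    (∀ t ∈ W, T0 ≤ t ∧ t ≤ T0 + T) → (∀ t ∈ W, V ≤ ‖Sd L a t‖) →
    (W.card : ℝ) ≤ C * T ^ ε * (L ^ 2 / V ^ 2 +
      T * ((L ^ 2 / V ^ 2) ^ (1 - 1 / (k : ℝ)) * (L ^ 2 / V ^ 4)) + T * (L ^ 6 / V ^ 8) ^ k)

open Jc_aux in
theorem jut (hJ0 : StJ0) (hS2 : StS2) : StJut := by
  intro k ε hk hε
  have hk0 : (0 : ℝ) < k := by exact_mod_cast hk
  obtain ⟨C0, hC0, h0⟩ := hJ0 k ε hk hε
  obtain ⟨CC, hCC1, hcard⟩ := hS2
  refine ⟨8 * C0, by linarith, ?_⟩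
  intro T0 T L V a W hL hT hV ha hSep hWT hlarge
  have hT0 : 0 < T := by linarith
  have hL0 : 0 < L := by linarith
  have hTe : 1 ≤ T ^ ε := Real.one_le_rpow hT hε.le
  obtain ⟨G, hG⟩ : ∃ G : ℝ, G = L ^ 2 / V ^ 2 := ⟨_, rfl⟩
  have hG0 : 0 < G := by rw [hG]; positivity
  obtain ⟨Z, hZ⟩ : ∃ Z : ℝ, Z = (L ^ 6 / V ^ 8) ^ k := ⟨_, rfl⟩
  have hZ0 : 0 ≤ Z := by rw [hZ]; positivity
  obtain ⟨T1, hT1⟩ : ∃ T1 : ℝ, T1 = G ^ (1 / (k : ℝ)) * (V ^ 4 / L ^ 2) := ⟨_, rfl⟩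
  have hT10 : 0 < T1 := by rw [hT1]; positivity
  have hGk : (L ^ 2 * T1 / V ^ 4) ^ k = G := by
    have e1 : L ^ 2 * T1 / V ^ 4 = G ^ (1 / (k : ℝ)) := by
      rw [hT1]; field_simp
    rw [e1, ← Real.rpow_natCast, ← Real.rpow_mul hG0.le, one_div, inv_mul_cancel₀ hk0.ne',
      Real.rpow_one]
  have hB2 : (L ^ 2 / V ^ 2) ^ (1 - 1 / (k : ℝ)) * (L ^ 2 / V ^ 4) = G / T1 := by
    rw [← hG, Real.rpow_sub hG0, Real.rpow_one, hT1]
    have : 0 < G ^ (1 / (k : ℝ)) := by positivity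
    field_simp
  rw [hB2, ← hG, ← hZ]
  have hGT : 0 ≤ G / T1 := by positivity
  rcases le_or_gt T T1 with hTT1 | hTT1
  · have h1 := h0 T0 T L V a W hL hT hV ha hSep hWT hlarge
    have h2 : (L ^ 2 * T / V ^ 4) ^ k ≤ G := by
      rw [← hGk]; gcongr
    rw [← hG, ← hZ] at h1
    calc (W.card : ℝ) ≤ C0 * T ^ ε * (G + (L ^ 2 * T / V ^ 4) ^ k + T * Z) := h1
      _ ≤ C0 * T ^ ε * (G + G + T * Z) := by gcongr
      _ ≤ C0 * T ^ ε * (8 * (G + T * (G / T1) + T * Z)) := by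
          have : 0 ≤ T * Z := by positivity
          have : 0 ≤ T * (G / T1) := by positivity
          gcongr
          linarith
      _ = _ := by ring
  rcases lt_or_ge T1 1 with hT1' | hT1'
  · rcases W.eq_empty_or_nonempty with hWe | hWne
    · subst hWe
      rw [Finset.card_empty, Nat.cast_zero]; positivity
    obtain ⟨t, ht⟩ := hWne
    have hV2 : V ≤ 2 * L := by
      refine (hlarge t ht).trans ?_
      unfold Sd
      have h1 : ∀ n ∈ Finset.Ioc ⌊L⌋₊ ⌊2 * L⌋₊,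
          ‖a n * (n : ℂ) ^ (-(t * Complex.I))‖ ≤ 1 := by
        intro n hn
        rw [norm_mul]
        have hn0 : 0 < n := by
          have := (Finset.mem_Ioc.1 hn).1
          omega
        have h2 : ‖(n : ℂ) ^ (-(t * Complex.I))‖ = 1 := by
          rw [Complex.norm_natCast_cpow_of_pos hn0]
          simp
        rw [h2, mul_one]
        exact ha n
      refine (norm_sum_le _ _).trans ((Finset.sum_le_sum h1).trans ?_)
      rw [Finset.sum_const, nsmul_eq_mul, mul_one, Nat.card_Ioc]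
      have h3 : ⌊2 * L⌋₊ ≤ 2 * ⌊L⌋₊ + 1 := by
        have h4 := Nat.lt_floor_add_one L
        have h5 := Nat.floor_le (by linarith : 0 ≤ 2 * L)
        have h6 : ((⌊2 * L⌋₊ : ℕ) : ℝ) < ((2 * ⌊L⌋₊ + 2 : ℕ) : ℝ) := by
          push_cast; linarith
        have h7 : ⌊2 * L⌋₊ < 2 * ⌊L⌋₊ + 2 := by exact_mod_cast h6
        omega
      have h4 : ((⌊2 * L⌋₊ - ⌊L⌋₊ : ℕ) : ℝ) ≤ ((⌊L⌋₊ + 1 : ℕ) : ℝ) := by
        exact_mod_cast (by omega : ⌊2 * L⌋₊ - ⌊L⌋₊ ≤ ⌊L⌋₊ + 1)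
      refine h4.trans ?_
      push_cast
      have := Nat.floor_le hL0.le
      linarith
    have hG4 : 1 / 4 ≤ G := by
      rw [hG, div_le_div_iff₀ (by norm_num) (by positivity)]
      nlinarith
    have hRT := (hcard W hSep).2.2 T0 T hT hWT
    have h5 : 1 / 4 ≤ G / T1 := by
      rw [le_div_iff₀ hT10]
      nlinarith
    calc (W.card : ℝ) ≤ 2 * T := hRT
      _ = 8 * 1 * 1 * (0 + T * (1 / 4) + 0) := by ring
      _ ≤ 8 * C0 * T ^ ε * (G + T * (G / T1) + T * Z) := by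
          have : 0 ≤ T * Z := by positivity
          gcongr
  · have hB : ∀ s0 : ℝ, ∀ W' : Finset ℝ, W' ⊆ W → (∀ t ∈ W', s0 ≤ t ∧ t ≤ s0 + T1) →
        (W'.card : ℝ) ≤ C0 * T ^ ε * (2 * G + T1 * Z) := by
      intro s0 W' hsub hwin
      have h1 := h0 s0 T1 L V a W' hL hT1' hV ha
        (fun s hs t ht hne => hSep s (hsub hs) t (hsub ht) hne) hwin (fun t ht => hlarge t (hsub ht))
      rw [hGk, ← hG, ← hZ] at h1
      have h2 : T1 ^ ε ≤ T ^ ε := Real.rpow_le_rpow hT10.le hTT1.le hε.le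
      calc (W'.card : ℝ) ≤ C0 * T1 ^ ε * (G + G + T1 * Z) := h1
        _ ≤ C0 * T ^ ε * (G + G + T1 * Z) := by gcongr
        _ = _ := by ring
    have h3 := split hT10 hT0.le hWT hB
    have h4 : T / T1 + 1 ≤ 2 * (T / T1) := by
      have : 1 ≤ T / T1 := by rw [le_div_iff₀ hT10]; linarith
      linarith
    calc (W.card : ℝ) ≤ (T / T1 + 1) * (C0 * T ^ ε * (2 * G + T1 * Z)) := h3
      _ ≤ (2 * (T / T1)) * (C0 * T ^ ε * (2 * G + T1 * Z)) := by gcongr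
      _ = C0 * T ^ ε * (4 * (T * (G / T1)) + 2 * (T * Z)) := by field_simp; ring
      _ ≤ C0 * T ^ ε * (8 * (G + T * (G / T1) + T * Z)) := by
          have : 0 ≤ T * Z := by positivity
          have : 0 ≤ T * (G / T1) := by positivity
          gcongr
          linarith
      _ = _ := by ring

end Pool.Agent.Work.MP_a8fbd7_nt.OX.JK
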